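import Pool.Agent.M3E.Gen

/-!
# Asymptotic pairs for one diagonal element
-/

set_option autoImplicit false

open Matrix Filter Topology Set

namespace M3E

open Margulis3 M3C M3D

/-- `b ^ (-n) u b ^ n` -/
noncomputable def cj (b : Fin 3 → ℝ) (u : Mt) (n : ℕ) : Mt :=
  Matrix.diagonal (fun q => (b q ^ n)⁻¹) * u * Matrix.diagonal (fun q => b q ^ n)

lemma bpow_det {b : Fin 3 → ℝ} (hb : (Matrix.diagonal b).det = 1) (p : ℕ) :
    (Matrix.diagonal (fun q => b q ^ p)).det = 1 := by
  rw [det_diagonal3] at hb ⊢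
  rw [← mul_pow, ← mul_pow, hb, one_pow]

/-- without expanding entries there is a diagonal row or column -/
lemma line_of_noexp {b : Fin 3 → ℝ} (hb : (Matrix.diagonal b).det = 1) {q0 : Fin 3}
    (hq0 : |b q0| ≠ 1) {G : Mt} (h : ∀ p q, |b q| < |b p| → G p q = 0) :
    ∃ l, (∀ q, q ≠ l → G l q = 0) ∨ (∀ q, q ≠ l → G q l = 0) := by
  have hprod : |b 0| * |b 1| * |b 2| = 1 := by
    rw [det_diagonal3] at hb
    rw [← abs_mul, ← abs_mul, hb, abs_one]
  obtain ⟨i, -, hi⟩ := Finset.exists_max_image (Finset.univ : Finset (Fin 3)) (fun q => |b q|)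
    ⟨0, Finset.mem_univ _⟩
  obtain ⟨m, -, hm⟩ := Finset.exists_min_image (Finset.univ : Finset (Fin 3)) (fun q => |b q|)
    ⟨0, Finset.mem_univ _⟩
  have hlt : |b m| < |b i| := by
    by_contra hcon
    push Not at hcon
    have hall : ∀ q, |b q| = |b i| := fun q =>
      le_antisymm (hi q (Finset.mem_univ q)) (hcon.trans (hm q (Finset.mem_univ q)))
    rw [hall 0, hall 1, hall 2] at hprod
    have h3 : |b i| = 1 := by
      have h0 : 0 ≤ |b i| := abs_nonneg _
      have : (|b i| - 1) * (|b i| ^ 2 + |b i| + 1) = 0 := by linarith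
      rcases mul_eq_zero.mp this with h' | h'
      · linarith
      · nlinarith
    exact hq0 ((hall q0).trans h3)
  have him : i ≠ m := by rintro rfl; exact lt_irrefl _ hlt
  obtain ⟨j, hji, hjm, -⟩ := third i m him
  have hall := three_cases him hji hjm
  by_cases hj : |b j| < |b i|
  · refine ⟨i, Or.inl fun q hq => ?_⟩
    rcases hall q with rfl | rfl | rfl
    · exact absurd rfl hq
    · exact h i q hlt
    · exact h i q hj
  · push Not at hj
    refine ⟨m, Or.inr fun q hq => ?_⟩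
    rcases hall q with rfl | rfl | rfl
    · exact h q m hlt
    · exact absurd rfl hq
    · exact h q m (hlt.trans_le hj)

/-- scaling by a power of a ratio -/
lemma scale_time {b : Fin 3 → ℝ} (hb0 : ∀ q, 0 < |b q|) {G : Mt}
    (hex : ∃ p q, |b q| < |b p| ∧ G p q ≠ 0) (hsm : ∀ p q, |b q| < |b p| → |G p q| ≤ 1) :
    ∃ m : ℕ, (∀ p q, |b q| < |b p| → (|b p| / |b q|) ^ m * |G p q| ≤ 1) ∧
      ∃ p q, |b q| < |b p| ∧ |b q| / |b p| < (|b p| / |b q|) ^ m * |G p q| := by
  classical
  have hE : ∃ M : ℕ, ∃ p q, |b q| < |b p| ∧ 1 < (|b p| / |b q|) ^ M * |G p q| := by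
    obtain ⟨p, q, hlt, hG⟩ := hex
    have h1 : 1 < |b p| / |b q| := (one_lt_div (hb0 q)).mpr hlt
    have hGp : 0 < |G p q| := abs_pos.mpr hG
    obtain ⟨M, hM⟩ := pow_unbounded_of_one_lt (1 / |G p q|) h1
    refine ⟨M, p, q, hlt, ?_⟩
    rwa [div_lt_iff₀ hGp] at hM
  have hfind := Nat.find_spec hE
  have hmin : ∀ m, m < Nat.find hE → ¬ ∃ p q, |b q| < |b p| ∧ 1 < (|b p| / |b q|) ^ m * |G p q| :=
    fun m hm => Nat.find_min hE hm
  obtain ⟨p, q, hlt, hgt⟩ := hfind
  have hM0 : Nat.find hE ≠ 0 := by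
    intro h0
    rw [h0, pow_zero, one_mul] at hgt
    linarith [hsm p q hlt]
  obtain ⟨m, hm⟩ := Nat.exists_eq_succ_of_ne_zero hM0
  refine ⟨m, ?_, p, q, hlt, ?_⟩
  · intro p' q' hlt'
    by_contra hcon
    push Not at hcon
    exact hmin m (by omega) ⟨p', q', hlt', hcon⟩
  · rw [hm, pow_succ] at hgt
    have h1 : 0 < |b p| / |b q| := div_pos (hb0 p) (hb0 q)
    have h2 : |b q| / |b p| = (|b p| / |b q|)⁻¹ := by rw [inv_div]
    rw [h2, inv_lt_iff_one_lt_mul₀ h1]
    linarith [hgt, mul_comm ((|b p| / |b q|) ^ m * |G p q|) (|b p| / |b q|),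
      show (|b p| / |b q|) ^ m * (|b p| / |b q|) * |G p q|
        = |b p| / |b q| * ((|b p| / |b q|) ^ m * |G p q|) by ring]

/-- every closed set invariant under the lattice and one noncompact diagonal element contains an
asymptotic pair -/
theorem asym_pair {Y : Set Mt} (hY : Bd Y) (hne : NC Y) {b : Fin 3 → ℝ}
    (hb : (Matrix.diagonal b).det = 1) {q0 : Fin 3} (hq0 : |b q0| ≠ 1) {W : Set Mt}
    (hWY : W ⊆ Y) (hW : Bs b W) :
    ∃ k ∈ W, ∃ u : Mt, u ≠ 1 ∧ u * k ∈ W ∧ Tendsto (cj b u) atTop (𝓝 1) := by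
  obtain ⟨Z, hZW, hZ, hmin⟩ := exists_min_bs hY hWY hW
  obtain ⟨z, hzZ⟩ := hZ.ne
  have hzY : z ∈ Y := hWY (hZW hzZ)
  have hzd := hY.det z hzY
  have hb0 : ∀ q, 0 < |b q| := fun q => abs_pos.mpr (diag_ne hb q)
  obtain ⟨Ms, hMs, hlim⟩ := mem_closure_iff_seq_limit.mp (recur hZ hmin hzZ)
  have hno := no_return hY hne hb hq0 hzY hlim (fun n => (hMs n).2)
  set G : ℕ → Mt := fun n => Ms n * z⁻¹ with hG
  have hGz : ∀ n, G n * z = Ms n := fun n => by
    simp only [hG]; rw [mul_assoc, inv_mul_one hzd, mul_one]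
  have hG1' : Tendsto G atTop (𝓝 1) := by
    have h1 := tendsto_mul' hlim (tendsto_const_nhds (x := z⁻¹))
    rwa [mul_inv_one hzd] at h1
  set F : Ultrafilter ℕ := hyperfilter ℕ with hF
  have hFle : (F : Filter ℕ) ≤ atTop := Nat.hyperfilter_le_atTop
  have hG1 : Tendsto G F (𝓝 1) := hG1'.mono_left hFle
  have htime : ∀ᶠ n in (F : Filter ℕ), ∃ m : ℕ,
      (∀ p q, |b q| < |b p| → (|b p| / |b q|) ^ m * |G n p q| ≤ 1) ∧
      ∃ p q, |b q| < |b p| ∧ |b q| / |b p| < (|b p| / |b q|) ^ m * |G n p q| := by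
    filter_upwards [hFle hno, near_one hG1] with n h1 h2
    refine scale_time hb0 ?_ ?_
    · by_contra hcon
      push Not at hcon
      obtain ⟨l, hl⟩ := line_of_noexp hb hq0 hcon
      exact h1 l hl
    · intro p q hlt
      have hpq : p ≠ q := by rintro rfl; exact lt_irrefl _ hlt
      have := h2 p q
      rw [Matrix.one_apply_ne hpq, sub_zero] at this
      linarith
  have hch : ∀ n, ∃ m : ℕ, ((∃ m : ℕ,
      (∀ p q, |b q| < |b p| → (|b p| / |b q|) ^ m * |G n p q| ≤ 1) ∧
      ∃ p q, |b q| < |b p| ∧ |b q| / |b p| < (|b p| / |b q|) ^ m * |G n p q|) →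
      (∀ p q, |b q| < |b p| → (|b p| / |b q|) ^ m * |G n p q| ≤ 1) ∧
      ∃ p q, |b q| < |b p| ∧ |b q| / |b p| < (|b p| / |b q|) ^ m * |G n p q|) := by
    intro n
    by_cases h : ∃ m : ℕ,
      (∀ p q, |b q| < |b p| → (|b p| / |b q|) ^ m * |G n p q| ≤ 1) ∧
      ∃ p q, |b q| < |b p| ∧ |b q| / |b p| < (|b p| / |b q|) ^ m * |G n p q|
    · obtain ⟨m, hm⟩ := h
      exact ⟨m, fun _ => hm⟩
    · exact ⟨0, fun h' => absurd h' h⟩
  choose m hm using hch
  have hm1 : ∀ᶠ n in (F : Filter ℕ),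
      (∀ p q, |b q| < |b p| → (|b p| / |b q|) ^ (m n) * |G n p q| ≤ 1) ∧
      ∃ p q, |b q| < |b p| ∧ |b q| / |b p| < (|b p| / |b q|) ^ (m n) * |G n p q| := by
    filter_upwards [htime] with n hn
    exact hm n hn
  have hch2 : ∀ n, ∃ pq : Fin 3 × Fin 3,
      (∃ p q, |b q| < |b p| ∧ |b q| / |b p| < (|b p| / |b q|) ^ (m n) * |G n p q|) →
      |b pq.2| < |b pq.1| ∧
        |b pq.2| / |b pq.1| < (|b pq.1| / |b pq.2|) ^ (m n) * |G n pq.1 pq.2| := by
    intro n
    by_cases h : ∃ p q, |b q| < |b p| ∧ |b q| / |b p| < (|b p| / |b q|) ^ (m n) * |G n p q|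
    · obtain ⟨p, q, hpq⟩ := h
      exact ⟨(p, q), fun _ => hpq⟩
    · exact ⟨(0, 0), fun h' => absurd h' h⟩
  choose pq hpq using hch2
  obtain ⟨⟨p0, q1⟩, -, hcst⟩ := ult_fin F pq Set.univ Set.finite_univ
    (Eventually.of_forall fun _ => mem_univ _)
  have hbig : ∀ᶠ n in (F : Filter ℕ), |b q1| < |b p0| ∧
      |b q1| / |b p0| < (|b p0| / |b q1|) ^ (m n) * |G n p0 q1| := by
    filter_upwards [hm1, hcst] with n h1 h2
    have := hpq n h1.2
    rw [h2] at this
    exact this
  have hlt0 : |b q1| < |b p0| := by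
    obtain ⟨n, hn⟩ := hbig.exists
    exact hn.1
  have hp0q1 : p0 ≠ q1 := by rintro rfl; exact lt_irrefl _ hlt0
  set a : ℕ → Fin 3 → ℝ := fun n q => b q ^ (m n) with ha
  have hent : ∀ n p q, |(Matrix.diagonal (a n) * G n * Matrix.diagonal (fun i => (a n i)⁻¹)) p q|
      = (|b p| / |b q|) ^ (m n) * |G n p q| := by
    intro n p q
    rw [mul_diagonal, diagonal_mul, abs_mul, abs_mul, abs_inv]
    simp only [ha, abs_pow]
    rw [div_pow]
    have := (pow_pos (hb0 q) (m n)).ne'
    field_simp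
  have hlimex : ∀ p q, ∃ x : ℝ, (¬ |b q| < |b p| → x = (1 : Mt) p q) ∧
      Tendsto (fun n => (Matrix.diagonal (a n) * G n *
        Matrix.diagonal (fun i => (a n i)⁻¹)) p q) F (𝓝 x) := by
    intro p q
    by_cases hlt : |b q| < |b p|
    · obtain ⟨x, -, hx⟩ := ult_lim F (fun n => (Matrix.diagonal (a n) * G n *
        Matrix.diagonal (fun i => (a n i)⁻¹)) p q) 1 (by
        filter_upwards [hm1] with n hn
        rw [hent]
        exact hn.1 p q hlt)
      exact ⟨x, fun h => absurd hlt h, hx⟩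
    · by_cases hpq' : p = q
      · subst hpq'
        refine ⟨1, fun _ => (Matrix.one_apply_eq p).symm, ?_⟩
        have h1 := tendsto_entry hG1 p p
        rw [Matrix.one_apply_eq] at h1
        refine h1.congr' (Eventually.of_forall fun n => ?_)
        change G n p p = (Matrix.diagonal (a n) * G n * Matrix.diagonal (fun i => (a n i)⁻¹)) p p
        rw [mul_diagonal, diagonal_mul]
        have : a n p ≠ 0 := pow_ne_zero _ (diag_ne hb p)
        field_simp
      · refine ⟨0, fun _ => (Matrix.one_apply_ne hpq').symm, ?_⟩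
        have h1 := (tendsto_entry hG1 p q).abs
        rw [Matrix.one_apply_ne hpq', abs_zero] at h1
        refine squeeze_zero_norm' (Eventually.of_forall fun n => ?_) h1
        rw [Real.norm_eq_abs, hent]
        have h2 : |b p| / |b q| ≤ 1 := (div_le_one (hb0 q)).mpr (not_lt.mp hlt)
        have h3 : (|b p| / |b q|) ^ (m n) ≤ 1 :=
          pow_le_one₀ (div_nonneg (hb0 p).le (hb0 q).le) h2
        calc (|b p| / |b q|) ^ (m n) * |G n p q| ≤ 1 * |G n p q| :=
              mul_le_mul_of_nonneg_right h3 (abs_nonneg _)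
          _ = |G n p q| := one_mul _
  choose v0 hv1 hv2 using hlimex
  have hv0 : |b q1| / |b p0| ≤ |v0 p0 q1| := by
    have h1 := (hv2 p0 q1).abs
    refine ge_of_tendsto h1 ?_
    filter_upwards [hbig] with n hn
    rw [hent]
    exact hn.2.le
  have hadet : ∀ n, (Matrix.diagonal (a n)).det = 1 := fun n => bpow_det hb (m n)
  have hpowZ : ∀ M ∈ Z, ∀ n : ℕ, Matrix.diagonal (fun q => b q ^ n) * M ∈ Z := by
    intro M hM n
    induction n with
    | zero => simpa using hM
    | succ n ih =>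
      have h := hZ.left _ ih
      rw [← mul_assoc, diagonal_mul_diagonal] at h
      have e : (fun q => b q ^ (n + 1)) = fun q => b q * b q ^ n := by
        funext q; rw [pow_succ, mul_comm]
      rw [e]; exact h
  obtain ⟨k, hk, hvk⟩ := limit_pair hY hZ.closed (hZW.trans hWY) hZ.right F (y := fun _ => z)
    (v := G) (a := a) (Eventually.of_forall hadet)
    (Eventually.of_forall fun n => hpowZ z hzZ (m n))
    (Eventually.of_forall fun n => by
      rw [hGz n]
      exact hpowZ _ (hMs n).1 (m n)) (v0 := Matrix.of v0) (tendsto_mat fun p q => hv2 p q)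
  refine ⟨k, hZW hk, Matrix.of v0, ?_, hZW hvk, ?_⟩
  · intro h1
    have h2 : v0 p0 q1 = 0 := by
      have := congrFun (congrFun h1 p0) q1
      rw [Matrix.one_apply_ne hp0q1] at this
      exact this
    rw [h2, abs_zero] at hv0
    have : 0 < |b q1| / |b p0| := div_pos (hb0 q1) (hb0 p0)
    linarith
  · refine tendsto_mat fun p q => ?_
    have e : ∀ n : ℕ, cj b (Matrix.of v0) n p q = (b q / b p) ^ n * v0 p q := by
      intro n
      unfold cj
      rw [mul_diagonal, diagonal_mul, Matrix.of_apply, div_pow]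
      ring
    have hgoal : Tendsto (fun n : ℕ => (b q / b p) ^ n * v0 p q) atTop (𝓝 ((1 : Mt) p q)) := by
      by_cases hlt : |b q| < |b p|
      · have hpq' : p ≠ q := by rintro rfl; exact lt_irrefl _ hlt
        rw [Matrix.one_apply_ne hpq']
        have h1 : |b q / b p| < 1 := by
          rw [abs_div]; exact (div_lt_one (hb0 p)).mpr hlt
        have h2 := (tendsto_pow_atTop_nhds_zero_of_abs_lt_one h1).mul_const (v0 p q)
        rwa [zero_mul] at h2
      · rw [hv1 p q hlt]
        by_cases hpq' : p = q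
        · subst hpq'
          rw [div_self (diag_ne hb p)]
          simp only [one_pow, one_mul]
          exact tendsto_const_nhds
        · rw [Matrix.one_apply_ne hpq']
          simp only [mul_zero]
          exact tendsto_const_nhds
    exact hgoal.congr' (Eventually.of_forall fun n => (e n).symm)

/-- closed orbits have no asymptotic pairs -/
theorem no_asym_of_closed {g : Mt} (hS : Bd (orbitSet g)) {b : Fin 3 → ℝ}
    (hb : (Matrix.diagonal b).det = 1) {h u : Mt} (hh : h ∈ orbitSet g) (huh : u * h ∈ orbitSet g)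
    (hu : Tendsto (cj b u) atTop (𝓝 1)) : u = 1 := by
  have hloc := loc_of_closed hS
  obtain ⟨K, hK, hKm⟩ := hS.cpt
  have hbd : ∀ n : ℕ, (Matrix.diagonal (fun q => (b q ^ n)⁻¹)).det = 1 := fun n =>
    (diag_inv (bpow_det hb n)).1
  choose γ hγ hγK using fun n => hKm _ (hS.left _ hh _ (hbd n))
  set F : Ultrafilter ℕ := hyperfilter ℕ with hF
  have hFle : (F : Filter ℕ) ≤ atTop := Nat.hyperfilter_le_atTop
  set y : ℕ → Mt := fun n => Matrix.diagonal (fun q => (b q ^ n)⁻¹) * h * ir (γ n) with hy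
  obtain ⟨k, -, hlim⟩ := ult_cpt F hK y (Eventually.of_forall hγK)
  have hyS : ∀ n, y n ∈ orbitSet g := fun n => hS.right _ (hS.left _ hh _ (hbd n)) _ (hγ n)
  have hkS : k ∈ orbitSet g := hS.closed.mem_of_tendsto hlim (Eventually.of_forall hyS)
  have hkd := hS.det k hkS
  have hy2 : ∀ n, cj b u n * y n ∈ orbitSet g := by
    intro n
    obtain ⟨i1, i2, i3⟩ := diag_inv (bpow_det hb n)
    have e2 : cj b u n * y n = Matrix.diagonal (fun q => (b q ^ n)⁻¹) * (u * h) * ir (γ n) := by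
      unfold cj
      simp only [hy]
      calc _ = Matrix.diagonal (fun q => (b q ^ n)⁻¹) * u * (Matrix.diagonal (fun q => b q ^ n) *
            Matrix.diagonal (fun q => (b q ^ n)⁻¹)) * h * ir (γ n) := by simp only [mul_assoc]
        _ = _ := by rw [i3, mul_one]; simp only [mul_assoc]
    rw [e2]
    exact hS.right _ (hS.left _ huh _ (hbd n)) _ (hγ n)
  have hlim2 : Tendsto (fun n => cj b u n * y n) F (𝓝 k) := by
    have := tendsto_mul' (hu.mono_left hFle) hlim
    rwa [one_mul] at this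
  obtain ⟨U, hU, hUl⟩ := hloc k hkS
  have hevU : ∀ᶠ n in (F : Filter ℕ), y n ∈ U := hlim hU
  have hevU2 : ∀ᶠ n in (F : Filter ℕ), cj b u n * y n ∈ U := hlim2 hU
  obtain ⟨n, h1, h2⟩ := (hevU.and hevU2).exists
  obtain ⟨d, hd, e1⟩ := hUl _ (hyS n) h1
  obtain ⟨d', hd', e2⟩ := hUl _ (hy2 n) h2
  obtain ⟨j1, j2, j3⟩ := diag_inv hd
  have e3 : cj b u n * Matrix.diagonal d = Matrix.diagonal d' := by
    have := congrArg (fun M => M * k⁻¹) e2
    rw [e1, mul_assoc, mul_assoc, mul_inv_one hkd, mul_one, mul_assoc, mul_inv_one hkd,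
      mul_one] at this
    exact this
  have e4 : ∀ p q, p ≠ q → u p q = 0 := by
    intro p q hpq
    have e5 := congrFun (congrFun e3 p) q
    rw [mul_diagonal, Matrix.diagonal_apply_ne _ hpq] at e5
    have e6 := (mul_eq_zero.mp e5).resolve_right (diag_ne hd q)
    unfold cj at e6
    rw [mul_diagonal, diagonal_mul] at e6
    have e7 := (mul_eq_zero.mp e6).resolve_right (pow_ne_zero _ (diag_ne hb q))
    exact (mul_eq_zero.mp e7).resolve_left (inv_ne_zero (pow_ne_zero _ (diag_ne hb p)))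
  have e5 : ∀ n, cj b u n = u := by
    intro n
    ext p q
    unfold cj
    rw [mul_diagonal, diagonal_mul]
    by_cases hpq : p = q
    · subst hpq
      have := pow_ne_zero n (diag_ne hb p)
      field_simp
    · rw [e4 p q hpq, mul_zero, zero_mul]
  have h3 : Tendsto (cj b u) atTop (𝓝 u) := by
    rw [show cj b u = fun _ => u from funext e5]
    exact tendsto_const_nhds
  exact tendsto_nhds_unique h3 hu

end M3E
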