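import Pool.Agent.M3D.Chain

/-!
# Pairs of points on a root leaf: limits, returns
-/

set_option autoImplicit false

open Matrix Filter Topology Set

namespace M3E

open Margulis3 M3C M3D

/-- no closed orbit in `Y` -/
def NC (Y : Set Mt) : Prop := ∀ h ∈ Y, ¬ IsClosed (orbitSet h)

lemma third (i j : Fin 3) (hij : i ≠ j) :
    ∃ l, l ≠ i ∧ l ≠ j ∧ ∀ p, p = i ∨ p = j ∨ p = l := by
  revert i j; decide

lemma tendsto_mat {F : Filter ℕ} {Ms : ℕ → Mt} {M : Mt}
    (h : ∀ p q, Tendsto (fun n => Ms n p q) F (𝓝 (M p q))) : Tendsto Ms F (𝓝 M) :=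
  tendsto_pi_nhds.mpr fun p => tendsto_pi_nhds.mpr fun q => h p q

lemma prod_three {i j l : Fin 3} (hij : i ≠ j) (hli : l ≠ i) (hlj : l ≠ j) (f : Fin 3 → ℝ) :
    ∏ p, f p = f i * f j * f l := by
  have h : (Finset.univ : Finset (Fin 3)) = {i, j, l} := by
    ext p
    simp
    revert i j l p
    decide
  rw [h, Finset.prod_insert (by simp [hij, Ne.symm hli]), Finset.prod_insert (by simp [Ne.symm hlj]),
    Finset.prod_singleton]
  ring

lemma transv_same (i j : Fin 3) (t : ℝ) (hij : i ≠ j) : transvection i j t i j = t := by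
  simp [transvection, hij]

/-- limits of pairs -/
theorem limit_pair {Y : Set Mt} (hY : Bd Y) {W : Set Mt} (hW : IsClosed W) (hWY : W ⊆ Y)
    (hWΓ : ∀ M ∈ W, ∀ γ : Zt, γ.det = 1 → M * ir γ ∈ W) (F : Ultrafilter ℕ)
    {y v : ℕ → Mt} {a : ℕ → Fin 3 → ℝ}
    (ha : ∀ᶠ n in (F : Filter ℕ), (Matrix.diagonal (a n)).det = 1)
    (h1 : ∀ᶠ n in (F : Filter ℕ), Matrix.diagonal (a n) * y n ∈ W)
    (h2 : ∀ᶠ n in (F : Filter ℕ), Matrix.diagonal (a n) * (v n * y n) ∈ W) {v0 : Mt}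
    (hlim : Tendsto (fun n => Matrix.diagonal (a n) * v n * Matrix.diagonal (fun i => (a n i)⁻¹)) F
      (𝓝 v0)) : ∃ k ∈ W, v0 * k ∈ W := by
  obtain ⟨K, hK, hKm⟩ := hY.cpt
  have hγ : ∀ n, ∃ γ : Zt, γ.det = 1 ∧ (Matrix.diagonal (a n) * y n ∈ W →
      Matrix.diagonal (a n) * y n * ir γ ∈ K) := by
    intro n
    by_cases h : Matrix.diagonal (a n) * y n ∈ W
    · obtain ⟨γ, hγ, hk⟩ := hKm _ (hWY h)
      exact ⟨γ, hγ, fun _ => hk⟩
    · exact ⟨1, by simp, fun h' => absurd h' h⟩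
  choose γ hγ hγK using hγ
  obtain ⟨k, hk, hklim⟩ := ult_cpt F hK (fun n => Matrix.diagonal (a n) * y n * ir (γ n)) (by
    filter_upwards [h1] with n hn
    exact hγK n hn)
  have hkW : k ∈ W := hW.mem_of_tendsto hklim (by
    filter_upwards [h1] with n hn
    exact hWΓ _ hn _ (hγ n))
  refine ⟨k, hkW, ?_⟩
  have h3 := tendsto_mul' hlim hklim
  refine hW.mem_of_tendsto h3 ?_
  filter_upwards [ha, h2] with n hn1 hn2
  obtain ⟨i1, i2, i3⟩ := diag_inv hn1
  have e : Matrix.diagonal (a n) * v n * Matrix.diagonal (fun i => (a n i)⁻¹) *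
      (Matrix.diagonal (a n) * y n * ir (γ n)) = Matrix.diagonal (a n) * (v n * y n) * ir (γ n) := by
    calc _ = Matrix.diagonal (a n) * v n * (Matrix.diagonal (fun i => (a n i)⁻¹) *
          Matrix.diagonal (a n)) * y n * ir (γ n) := by simp only [mul_assoc]
      _ = _ := by rw [i2, mul_one]; simp only [mul_assoc]
  rw [e]
  exact hWΓ _ hn2 _ (hγ n)

lemma Bd.bounded {Y : Set Mt} (hY : Bd Y) {h : Mt} (hh : h ∈ Y) : BoundedOrbit h := by
  obtain ⟨K', hK', hK'm⟩ := hY.cpt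
  exact ⟨K', hK', fun d hd => hK'm _ (hY.left _ hh d hd)⟩

lemma not_loc {Y : Set Mt} (hY : Bd Y) (hne : NC Y) : ¬ Loc Y := by
  intro hloc
  obtain ⟨h, hh⟩ := hY.ne
  have hsub := (hY.closure_orbit hh).1
  refine hne h hh (closed_of_local fun M hM => ?_)
  obtain ⟨U, hU, hUl⟩ := hloc M (hsub hM)
  exact ⟨U, hU, fun N hN hNU => hUl N (hsub hN) hNU⟩

/-- the set of points with a partner at a fixed parameter -/
def Wst (Y : Set Mt) (i j : Fin 3) (s : ℝ) : Set Mt := {h | h ∈ Y ∧ transvection i j s * h ∈ Y}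

lemma wst_closed {Y : Set Mt} (hY : IsClosed Y) (i j : Fin 3) (s : ℝ) : IsClosed (Wst Y i j s) := by
  have hc : Continuous (fun N : Mt => transvection i j s * N) :=
    Continuous.matrix_mul continuous_const continuous_id
  exact hY.inter (hY.preimage hc)

lemma diag_transv {i j : Fin 3} (a : Fin 3 → ℝ) (s : ℝ) (haj : a j ≠ 0) :
    Matrix.diagonal a * transvection i j s
      = transvection i j (a i * (a j)⁻¹ * s) * Matrix.diagonal a := by
  have e : ∀ x y : ℝ, a i * x = y * a j → Matrix.diagonal a * Matrix.single i j x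
      = Matrix.single i j y * Matrix.diagonal a := by
    intro x y hxy
    ext p q
    rw [diagonal_mul, mul_diagonal]
    simp only [Matrix.single_apply]
    by_cases h : i = p ∧ j = q
    · obtain ⟨rfl, rfl⟩ := h
      simpa using hxy
    · rw [if_neg h, if_neg h]; simp
  unfold transvection
  rw [mul_add, add_mul, mul_one, one_mul, e s (a i * (a j)⁻¹ * s)]
  field_simp

lemma wst_right {Y : Set Mt} (hY : Bd Y) {i j : Fin 3} {s : ℝ} {M : Mt} (hM : M ∈ Wst Y i j s)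
    {γ : Zt} (hγ : γ.det = 1) : M * ir γ ∈ Wst Y i j s := by
  refine ⟨hY.right _ hM.1 _ hγ, ?_⟩
  rw [← mul_assoc]
  exact hY.right _ hM.2 _ hγ

lemma wst_left {Y : Set Mt} (hY : Bd Y) {i j : Fin 3} {s : ℝ} {M : Mt} (hM : M ∈ Wst Y i j s)
    {a : Fin 3 → ℝ} (ha : (Matrix.diagonal a).det = 1) :
    Matrix.diagonal a * M ∈ Wst Y i j (a i * (a j)⁻¹ * s) := by
  refine ⟨hY.left _ hM.1 _ ha, ?_⟩
  rw [← mul_assoc, ← diag_transv a s (diag_ne ha j), mul_assoc]
  exact hY.left _ hM.2 _ ha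

end M3E
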