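import Pool.Agent.M3E.Basic

/-!
# Blowing up pairs of close points
-/

set_option autoImplicit false

open Matrix Filter Topology Set

namespace M3E

open Margulis3 M3C M3D

lemma det_zpow {t : ℝ} (ht : 0 < t) {e : Fin 3 → ℤ} (he : e 0 + e 1 + e 2 = 0) :
    (Matrix.diagonal (fun p => t ^ e p)).det = 1 := by
  rw [det_diagonal3, ← zpow_add₀ ht.ne', ← zpow_add₀ ht.ne', he, zpow_zero]

lemma conj_entry (a : Fin 3 → ℝ) (v : Mt) (p q : Fin 3) :
    (Matrix.diagonal a * v * Matrix.diagonal (fun i => (a i)⁻¹)) p q = a p * v p q * (a q)⁻¹ := by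
  rw [mul_diagonal, diagonal_mul]

theorem blowup {Y W : Set Mt} (hY : Bd Y) (hW : IsClosed W) (hWY : W ⊆ Y)
    (hWΓ : ∀ M ∈ W, ∀ γ : Zt, γ.det = 1 → M * ir γ ∈ W) {e : Fin 3 → ℤ}
    (he : e 0 + e 1 + e 2 = 0) {R : ℕ} (hR : 0 < R) (heR : ∀ p q, e p - e q ≤ R)
    (hWe : ∀ M ∈ W, ∀ t : ℝ, 0 < t → Matrix.diagonal (fun p => t ^ e p) * M ∈ W)
    (F : Ultrafilter ℕ) {y G : ℕ → Mt} (hy : ∀ n, y n ∈ W) (hGy : ∀ n, G n * y n ∈ W)
    (hG : Tendsto G F (𝓝 1)) {p0 q0 : Fin 3} (h0 : e p0 - e q0 = R)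
    (hne : ∀ᶠ n in (F : Filter ℕ), G n p0 q0 ≠ 0)
    (hmax : ∀ᶠ n in (F : Filter ℕ), ∀ p q, e q < e p → |G n p q| ≤ |G n p0 q0|) :
    ∃ v0 : Mt, (∀ p q, e p - e q ≠ R → v0 p q = (1 : Mt) p q) ∧ v0 p0 q0 ≠ 0 ∧
      ∃ k ∈ W, v0 * k ∈ W := by
  have hpq0 : p0 ≠ q0 := by
    rintro rfl
    rw [sub_self] at h0
    omega
  have hR' : (0 : ℝ) < 1 / (R : ℝ) := by positivity
  set m : ℕ → ℝ := fun n => |G n p0 q0| with hm
  have hm0 : Tendsto m F (𝓝 0) := by
    have h1 := (tendsto_entry hG p0 q0).abs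
    rwa [Matrix.one_apply_ne hpq0, abs_zero] at h1
  set τ : ℕ → ℝ := fun n => (m n) ^ (1 / (R : ℝ)) with hτ
  have hτ0 : Tendsto τ F (𝓝 0) := by
    have h1 := ((Real.continuous_rpow_const hR'.le).tendsto 0).comp hm0
    rw [Real.zero_rpow hR'.ne'] at h1
    exact h1
  have hτpos : ∀ᶠ n in (F : Filter ℕ), 0 < τ n := by
    filter_upwards [hne] with n hn
    exact Real.rpow_pos_of_pos (abs_pos.mpr hn) _
  have hτR : ∀ n, τ n ^ R = m n := by
    intro n
    have h1 : 0 ≤ m n := abs_nonneg _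
    simp only [hτ]
    rw [← Real.rpow_natCast, ← Real.rpow_mul h1]
    rw [one_div_mul_cancel (by positivity), Real.rpow_one]
  set a : ℕ → Fin 3 → ℝ := fun n p => (τ n)⁻¹ ^ e p with ha
  have hentry : ∀ n p q, 0 < τ n →
      (Matrix.diagonal (a n) * G n * Matrix.diagonal (fun i => (a n i)⁻¹)) p q
        = τ n ^ (e q - e p) * G n p q := by
    intro n p q hn
    rw [conj_entry]
    simp only [ha]
    rw [_root_.inv_zpow, _root_.inv_zpow, inv_inv, zpow_sub₀ hn.ne']
    field_simp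
  have hent0 : ∀ᶠ n in (F : Filter ℕ),
      |(Matrix.diagonal (a n) * G n * Matrix.diagonal (fun i => (a n i)⁻¹)) p0 q0| = 1 := by
    filter_upwards [hne, hτpos] with n hn1 hn2
    rw [hentry n p0 q0 hn2, abs_mul, abs_of_pos (zpow_pos hn2 _)]
    have h1 : e q0 - e p0 = -(R : ℤ) := by omega
    rw [h1, _root_.zpow_neg, zpow_natCast, hτR n]
    exact inv_mul_cancel₀ (abs_ne_zero.mpr hn1)
  have hlim : ∀ p q, ∃ x : ℝ, (e p - e q ≠ R → x = (1 : Mt) p q) ∧
      Tendsto (fun n => (Matrix.diagonal (a n) * G n *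
        Matrix.diagonal (fun i => (a n i)⁻¹)) p q) F (𝓝 x) := by
    intro p q
    rcases lt_trichotomy (e p) (e q) with h | h | h
    · have hpq : p ≠ q := by rintro rfl; exact lt_irrefl _ h
      refine ⟨0, fun _ => (Matrix.one_apply_ne hpq).symm, ?_⟩
      obtain ⟨d, hd⟩ : ∃ d : ℕ, e q - e p = d := ⟨(e q - e p).toNat, by omega⟩
      have hd0 : d ≠ 0 := by omega
      have h1 : Tendsto (fun n => τ n ^ d * G n p q) F (𝓝 (0 ^ d * (1 : Mt) p q)) :=
        (hτ0.pow d).mul (tendsto_entry hG p q)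
      rw [zero_pow hd0, zero_mul] at h1
      refine h1.congr' ?_
      filter_upwards [hτpos] with n hn
      rw [hentry n p q hn, hd, zpow_natCast]
    · refine ⟨(1 : Mt) p q, fun _ => rfl, ?_⟩
      refine (tendsto_entry hG p q).congr' ?_
      filter_upwards [hτpos] with n hn
      rw [hentry n p q hn, h, sub_self, zpow_zero, one_mul]
    · have hpq : p ≠ q := by rintro rfl; exact lt_irrefl _ h
      by_cases hd : e p - e q = R
      · obtain ⟨x, -, hx⟩ := ult_lim F (fun n => (Matrix.diagonal (a n) * G n *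
          Matrix.diagonal (fun i => (a n i)⁻¹)) p q) 1 (by
          filter_upwards [hne, hτpos, hmax] with n hn1 hn2 hn3
          rw [hentry n p q hn2, abs_mul, abs_of_pos (zpow_pos hn2 _)]
          have h1 : e q - e p = -(R : ℤ) := by omega
          rw [h1, _root_.zpow_neg, zpow_natCast, hτR n, inv_mul_le_iff₀ (abs_pos.mpr hn1), mul_one]
          exact hn3 p q h)
        exact ⟨x, fun h' => absurd hd h', hx⟩
      · refine ⟨0, fun _ => (Matrix.one_apply_ne hpq).symm, ?_⟩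
        obtain ⟨d, hd'⟩ : ∃ d : ℕ, (R : ℤ) - (e p - e q) = d :=
          ⟨((R : ℤ) - (e p - e q)).toNat, by have := heR p q; omega⟩
        have hd0 : d ≠ 0 := by
          have := heR p q
          omega
        have h1 : Tendsto (fun n => τ n ^ d) F (𝓝 0) := by
          have := hτ0.pow d
          rwa [zero_pow hd0] at this
        refine squeeze_zero_norm' ?_ h1
        filter_upwards [hne, hτpos, hmax] with n hn1 hn2 hn3
        rw [Real.norm_eq_abs, hentry n p q hn2, abs_mul, abs_of_pos (zpow_pos hn2 _)]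
        have h2 := hn3 p q h
        have h3 : e q - e p = (d : ℤ) - (R : ℤ) := by omega
        have h4 : |G n p0 q0| = τ n ^ R := (hτR n).symm
        calc τ n ^ (e q - e p) * |G n p q| ≤ τ n ^ (e q - e p) * τ n ^ R := by
              rw [← h4]
              exact mul_le_mul_of_nonneg_left h2 (zpow_pos hn2 _).le
          _ = τ n ^ d := by
              rw [h3, ← zpow_natCast (τ n) R, ← zpow_add₀ hn2.ne', sub_add_cancel, zpow_natCast]
  choose v0 hv1 hv2 using hlim
  have hv0 : |v0 p0 q0| = 1 := by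
    have h1 := (hv2 p0 q0).abs
    refine tendsto_nhds_unique h1 ?_
    refine tendsto_const_nhds.congr' ?_
    filter_upwards [hent0] with n hn
    exact hn.symm
  refine ⟨Matrix.of v0, fun p q h => hv1 p q h, ?_, ?_⟩
  · intro h
    have h1 : v0 p0 q0 = 0 := h
    rw [h1, abs_zero] at hv0
    exact zero_ne_one hv0
  · refine limit_pair hY hW hWY hWΓ F (y := y) (v := G) (a := a) ?_ ?_ ?_
      (tendsto_mat fun p q => hv2 p q)
    · filter_upwards [hτpos] with n hn
      exact det_zpow (inv_pos.mpr hn) he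
    · filter_upwards [hτpos] with n hn
      exact hWe _ (hy n) _ (inv_pos.mpr hn)
    · filter_upwards [hτpos] with n hn
      exact hWe _ (hGy n) _ (inv_pos.mpr hn)

end M3E
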