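import Pool.Agent.M3E.Sing

/-!
# Closed orbits: no pairs, and dense singular orbits
-/

set_option autoImplicit false

open Matrix Filter Topology Set

namespace M3E

open Margulis3 M3C M3D

theorem no_pairs_of_closed {g : Mt} (hS : Bd (orbitSet g)) {i j : Fin 3} (hij : i ≠ j) {h : Mt}
    (hh : h ∈ orbitSet g) {t : ℝ} (ht : t ≠ 0) : transvection i j t * h ∉ orbitSet g := by
  intro hth
  have hloc := loc_of_closed hS
  obtain ⟨K, hK, hKm⟩ := hS.cpt
  set a : ℕ → Fin 3 → ℝ := fun n p =>
    ((2 : ℝ) ^ n) ^ (if p = j then (1 : ℤ) else if p = i then -1 else 0) with ha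
  have hadet : ∀ n, (Matrix.diagonal (a n)).det = 1 := fun n =>
    det_zpow (by positivity) (pm_sum hij.symm)
  have haj : ∀ n, a n j = 2 ^ n := by
    intro n
    simp only [ha, if_true, zpow_one]
  have hai : ∀ n, a n i = (2 ^ n)⁻¹ := by
    intro n
    simp only [ha, if_true, if_neg hij, _root_.zpow_neg_one]
  choose γ hγ hγK using fun n => hKm _ (hS.left _ hh _ (hadet n))
  set F : Ultrafilter ℕ := hyperfilter ℕ with hF
  have hFle : (F : Filter ℕ) ≤ atTop := Nat.hyperfilter_le_atTop
  set y : ℕ → Mt := fun n => Matrix.diagonal (a n) * h * ir (γ n) with hy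
  obtain ⟨k, -, hlim⟩ := ult_cpt F hK y (Eventually.of_forall hγK)
  have hyS : ∀ n, y n ∈ orbitSet g := fun n => hS.right _ (hS.left _ hh _ (hadet n)) _ (hγ n)
  have hkS : k ∈ orbitSet g := hS.closed.mem_of_tendsto hlim (Eventually.of_forall hyS)
  have hkd := hS.det k hkS
  set s : ℕ → ℝ := fun n => (1 / 4 : ℝ) ^ n * t with hs
  have hs0 : Tendsto s F (𝓝 0) := by
    have h0 : Tendsto (fun n : ℕ => ((1 / 4 : ℝ)) ^ n * t) F (𝓝 (0 * t)) :=
      ((tendsto_pow_atTop_nhds_zero_of_lt_one (by norm_num)
        (by norm_num)).mono_left hFle).mul_const t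
    rwa [zero_mul] at h0
  have hy2 : ∀ n, transvection i j (s n) * y n ∈ orbitSet g := by
    intro n
    have e1 : a n i * (a n j)⁻¹ * t = s n := by
      rw [hai, haj]
      simp only [hs]
      have : ((2 : ℝ) ^ n)⁻¹ * ((2 : ℝ) ^ n)⁻¹ = (1 / 4) ^ n := by
        rw [← mul_inv, ← mul_pow, one_div, inv_pow]; norm_num
      rw [this]
    have e2 : transvection i j (s n) * y n
        = Matrix.diagonal (a n) * (transvection i j t * h) * ir (γ n) := by
      rw [← mul_assoc (Matrix.diagonal (a n)), diag_transv (a n) t (diag_ne (hadet n) j), e1]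
      simp only [hy, mul_assoc]
    rw [e2]
    exact hS.right _ (hS.left _ hth _ (hadet n)) _ (hγ n)
  have hv : Tendsto (fun n => (transvection i j (s n) : Mt)) F (𝓝 1) := by
    refine tendsto_mat fun p q => ?_
    have e : ∀ n, (transvection i j (s n) : Mt) p q = (1 : Mt) p q
        + (if i = p ∧ j = q then s n else 0) := by
      intro n
      simp only [transvection, Matrix.add_apply, Matrix.single_apply]
    rw [funext e]
    by_cases h : i = p ∧ j = q
    · simp only [if_pos h]
      have := (tendsto_const_nhds (x := (1 : Mt) p q)).add hs0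
      rwa [add_zero] at this
    · simp only [if_neg h, add_zero]
      exact tendsto_const_nhds
  have hlim2 : Tendsto (fun n => transvection i j (s n) * y n) F (𝓝 k) := by
    have := tendsto_mul' hv hlim
    rwa [one_mul] at this
  obtain ⟨U, hU, hUl⟩ := hloc k hkS
  have hevU : ∀ᶠ n in (F : Filter ℕ), y n ∈ U := hlim hU
  have hevU2 : ∀ᶠ n in (F : Filter ℕ), transvection i j (s n) * y n ∈ U := hlim2 hU
  obtain ⟨n, h1, h2⟩ := (hevU.and hevU2).exists
  obtain ⟨d, hd, e1⟩ := hUl _ (hyS n) h1
  obtain ⟨d', hd', e2⟩ := hUl _ (hy2 n) h2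
  have e3 : transvection i j (s n) * Matrix.diagonal d = Matrix.diagonal d' := by
    have := congrArg (fun M => M * k⁻¹) e2
    rw [e1, mul_assoc, mul_assoc, mul_inv_one hkd, mul_one, mul_assoc, mul_inv_one hkd,
      mul_one] at this
    exact this
  have e4 := congrFun (congrFun e3 i) j
  rw [mul_diagonal, Matrix.diagonal_apply_ne _ hij, transv_same _ _ _ hij] at e4
  have hsn : s n ≠ 0 := mul_ne_zero (by positivity) ht
  exact (mul_ne_zero hsn (diag_ne hd j)) e4

/-- the one-parameter group transverse to the singular group -/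
noncomputable def rp (i j : Fin 3) (x : ℝ) : Fin 3 → ℝ := fun p =>
  if p = i then Real.exp (x / 2) else if p = j then Real.exp (-(x / 2)) else 1

lemma rp_det {i j : Fin 3} (hij : i ≠ j) (x : ℝ) : (Matrix.diagonal (rp i j x)).det = 1 := by
  obtain ⟨l, hli, hlj, -⟩ := third i j hij
  rw [det_diagonal, prod_three hij hli hlj]
  simp only [rp, if_true, if_neg hij.symm, if_neg hli, if_neg hlj, mul_one]
  rw [← Real.exp_add, add_neg_cancel, Real.exp_zero]

lemma rp_add {i j : Fin 3} (hij : i ≠ j) (x y : ℝ) :
    Matrix.diagonal (rp i j (x + y)) = Matrix.diagonal (rp i j x) * Matrix.diagonal (rp i j y) := by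
  rw [diagonal_mul_diagonal]
  congr 1
  funext p
  unfold rp
  split_ifs
  · rw [← Real.exp_add]; congr 1; ring
  · rw [← Real.exp_add]; congr 1; ring
  · rw [mul_one]

lemma rp_zero (i j : Fin 3) : Matrix.diagonal (rp i j 0) = 1 := by
  rw [← diagonal_one]
  congr 1
  funext p
  unfold rp
  split_ifs <;> simp

lemma diag_comm (a b : Fin 3 → ℝ) :
    Matrix.diagonal a * Matrix.diagonal b = Matrix.diagonal b * Matrix.diagonal a := by
  rw [diagonal_mul_diagonal, diagonal_mul_diagonal]
  congr 1
  funext p
  exact mul_comm _ _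

/-- parameters moving the point inside its singular orbit -/
def Spar {i j : Fin 3} (hij : i ≠ j) (h : Mt) : AddSubgroup ℝ where
  carrier := {x | Matrix.diagonal (rp i j x) * h ∈ singOrbit i j h}
  zero_mem' := by
    change Matrix.diagonal (rp i j 0) * h ∈ singOrbit i j h
    rw [rp_zero, one_mul]
    exact sing_self i j h
  add_mem' := by
    intro x y hx hy
    obtain ⟨b, hb, hbij, γ, hγ, e⟩ := hx
    obtain ⟨b', hb', hbij', γ', hγ', e'⟩ := hy
    change Matrix.diagonal (rp i j (x + y)) * h ∈ singOrbit i j h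
    refine ⟨fun p => b p * b' p, diag_mul_det hb hb', by simp only [abs_mul, hbij, hbij'],
      γ * γ', by rw [det_mul, hγ, hγ', one_mul], ?_⟩
    change _ = Matrix.diagonal (fun p => b p * b' p) * h * ir (γ * γ')
    change Matrix.diagonal (rp i j x) * h = Matrix.diagonal b * h * ir γ at e
    change Matrix.diagonal (rp i j y) * h = Matrix.diagonal b' * h * ir γ' at e'
    calc Matrix.diagonal (rp i j (x + y)) * h
        = Matrix.diagonal (rp i j x) * (Matrix.diagonal (rp i j y) * h) := by
          rw [rp_add hij, mul_assoc]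
      _ = Matrix.diagonal b' * (Matrix.diagonal (rp i j x) * h) * ir γ' := by
          rw [e', ← mul_assoc, ← mul_assoc, diag_comm (rp i j x) b']; simp only [mul_assoc]
      _ = Matrix.diagonal (fun p => b p * b' p) * h * ir (γ * γ') := by
          rw [e, ← diagonal_mul_diagonal, diag_comm b b', ir_mul]; simp only [mul_assoc]
  neg_mem' := by
    intro x hx
    obtain ⟨b, hb, hbij, γ, hγ, e⟩ := hx
    change Matrix.diagonal (rp i j x) * h = Matrix.diagonal b * h * ir γ at e
    change Matrix.diagonal (rp i j (-x)) * h ∈ singOrbit i j h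
    obtain ⟨i1, i2, i3⟩ := diag_inv hb
    refine ⟨fun p => (b p)⁻¹, i1, by simp only [abs_inv, hbij], γ.adjugate, adj_det hγ, ?_⟩
    change _ = Matrix.diagonal (fun p => (b p)⁻¹) * h * ir γ.adjugate
    have e2 : Matrix.diagonal (rp i j (-x)) * Matrix.diagonal (rp i j x) = 1 := by
      rw [← rp_add hij, neg_add_cancel, rp_zero]
    have e3 : h = Matrix.diagonal (rp i j (-x)) * (Matrix.diagonal b * h * ir γ) := by
      rw [← e, ← mul_assoc, e2, one_mul]
    calc Matrix.diagonal (rp i j (-x)) * h
        = (Matrix.diagonal (fun p => (b p)⁻¹) * Matrix.diagonal b) *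
          (Matrix.diagonal (rp i j (-x)) * h) * (ir γ * ir γ.adjugate) := by
            rw [i2, one_mul, ir_mul_adj hγ, mul_one]
      _ = Matrix.diagonal (fun p => (b p)⁻¹) *
          (Matrix.diagonal (rp i j (-x)) * (Matrix.diagonal b * h * ir γ)) * ir γ.adjugate := by
            rw [mul_assoc (Matrix.diagonal fun p => (b p)⁻¹), ← mul_assoc (Matrix.diagonal b),
              diag_comm b]
            simp only [mul_assoc]
      _ = _ := by rw [← e3]

lemma spar_of {i j : Fin 3} (hij : i ≠ j) {h : Mt} {e : Fin 3 → ℝ}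
    (he : (Matrix.diagonal e).det = 1) (hm : Matrix.diagonal e * h ∈ singOrbit i j h) :
    Real.log |e i| - Real.log |e j| ∈ Spar hij h := by
  set x := Real.log |e i| - Real.log |e j| with hx
  have hei := abs_pos.mpr (diag_ne he i)
  have hej := abs_pos.mpr (diag_ne he j)
  change Matrix.diagonal (rp i j x) * h ∈ singOrbit i j h
  obtain ⟨i1, i2, i3⟩ := diag_inv he
  have e1 : Matrix.diagonal (rp i j x) * h
      = Matrix.diagonal (fun p => rp i j x p * (e p)⁻¹) * (Matrix.diagonal e * h) := by
    rw [← diagonal_mul_diagonal, ← mul_assoc, mul_assoc (Matrix.diagonal (rp i j x)), i2, mul_one]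
  rw [e1]
  refine sing_left hm (diag_mul_det (rp_det hij x) i1) ?_
  rw [abs_mul, abs_mul, abs_inv, abs_inv]
  simp only [rp, if_true, if_neg hij.symm, Real.abs_exp]
  have e2 : |e i| = Real.exp (x / 2) * Real.exp (x / 2) * |e j| := by
    rw [← Real.exp_add, add_halves, hx, Real.exp_sub, Real.exp_log hei, Real.exp_log hej]
    field_simp
  rw [e2, Real.exp_neg]
  have := (Real.exp_pos (x / 2)).ne'
  field_simp

/-- small parameters exist for closed orbits -/
lemma spar_small {g : Mt} (hS : Bd (orbitSet g)) {i j : Fin 3} (hij : i ≠ j) {h : Mt}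
    (hh : h ∈ orbitSet g) {ε : ℝ} (hε : 0 < ε) : ∃ x ∈ Spar hij h, x ∈ Ioo 0 ε := by
  obtain ⟨l, hli, hlj, -⟩ := third i j hij
  have hloc := loc_of_closed hS
  obtain ⟨y, G, β, p, hy, hGy, hp, hβ, hG, hlim, k, hk⟩ := returns (W := orbitSet g) hS
    Subset.rfl hS.right l (fun M hM => hS.left M hM _ (bl_det l)) hS.ne
  have hkS : k ∈ orbitSet g := hS.closed.mem_of_tendsto hk (Eventually.of_forall hy)
  have hkd := hS.det k hkS
  obtain ⟨U, hU, hUl⟩ := hloc k hkS
  have hk2 : Tendsto (fun n => G n * y n) atTop (𝓝 k) := by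
    have := tendsto_mul' hlim hk
    rwa [one_mul] at this
  have hev1 : ∀ᶠ n in atTop, y n ∈ U := hk hU
  have hev2 : ∀ᶠ n in atTop, G n * y n ∈ U := hk2 hU
  have hlogi : ∀ q, Tendsto (fun n => Real.log |G n q q|) atTop (𝓝 0) := by
    intro q
    have h1 := (tendsto_entry hlim q q).abs
    rw [Matrix.one_apply_eq, abs_one] at h1
    have h2 := h1.log one_ne_zero
    rwa [Real.log_one] at h2
  have hdiff : Tendsto (fun n => Real.log |G n i i| - Real.log |G n j j|) atTop (𝓝 0) := by
    have := (hlogi i).sub (hlogi j)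
    rwa [sub_zero] at this
  have hev3 := (Metric.tendsto_nhds.mp hdiff) ε hε
  obtain ⟨n, ⟨⟨h1, h2⟩, h3⟩, h4⟩ := (((hev1.and hev2).and hev3).and (near_one hlim)).exists
  rw [Real.dist_eq, sub_zero] at h3
  obtain ⟨d, hd, e1⟩ := hUl _ (hy n) h1
  obtain ⟨d', hd', e2⟩ := hUl _ (hGy n) h2
  obtain ⟨i1, i2, i3⟩ := diag_inv hd
  set e : Fin 3 → ℝ := fun q => d' q * (d q)⁻¹ with he
  have hyd := hS.det _ (hy n)
  have hedet : (Matrix.diagonal e).det = 1 := diag_mul_det hd' i1
  have hGe : G n = Matrix.diagonal e := by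
    have h5 : k = Matrix.diagonal (fun q => (d q)⁻¹) * y n := by
      rw [e1, ← mul_assoc, i2, one_mul]
    have h6 : G n * y n = Matrix.diagonal e * y n := by
      calc G n * y n = Matrix.diagonal d' * k := e2
        _ = Matrix.diagonal d' * (Matrix.diagonal (fun q => (d q)⁻¹) * y n) := by rw [← h5]
        _ = Matrix.diagonal e * y n := by rw [← mul_assoc, diagonal_mul_diagonal]
    have := congrArg (fun M => M * (y n)⁻¹) h6
    rwa [mul_assoc, mul_inv_one hyd, mul_one, mul_assoc, mul_inv_one hyd, mul_one] at this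
  have hbi : bl l i = 2 := by unfold bl; rw [if_neg (Ne.symm hli)]
  have hbj : bl l j = 2 := by unfold bl; rw [if_neg (Ne.symm hlj)]
  -- `e h` lies in the singular orbit of `h`
  have hmem : Matrix.diagonal e * h ∈ singOrbit i j h := by
    have hyh : y n ∈ orbitSet h := by rw [orbit_eq hh]; exact hy n
    obtain ⟨a, ha, γ, hγ, ey⟩ := hyh
    change y n = Matrix.diagonal a * h * ir γ at ey
    obtain ⟨j1, j2, j3⟩ := diag_inv ha
    refine ⟨fun q => bl l q ^ p n, bl_pow_det l (p n), by simp only [hbi, hbj],
      γ * β n * γ.adjugate, by rw [det_mul, det_mul, hγ, hβ, adj_det hγ]; norm_num, ?_⟩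
    change _ = Matrix.diagonal (fun q => bl l q ^ p n) * h * ir (γ * β n * γ.adjugate)
    have h5 : Matrix.diagonal e * (Matrix.diagonal a * h * ir γ)
        = Matrix.diagonal (fun q => bl l q ^ p n) * (Matrix.diagonal a * h * ir γ) * ir (β n) := by
      rw [← ey, ← hGe]; exact hG n
    calc Matrix.diagonal e * h
        = Matrix.diagonal (fun q => (a q)⁻¹) * (Matrix.diagonal e *
          (Matrix.diagonal a * h * ir γ)) * ir γ.adjugate := by
          rw [← mul_assoc, diag_comm (fun q => (a q)⁻¹) e]
          calc Matrix.diagonal e * h = Matrix.diagonal e * (Matrix.diagonal (fun q => (a q)⁻¹) *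
                Matrix.diagonal a) * h * (ir γ * ir γ.adjugate) := by
                rw [j2, ir_mul_adj hγ, mul_one, mul_one]
            _ = _ := by simp only [mul_assoc]
      _ = Matrix.diagonal (fun q => (a q)⁻¹) * (Matrix.diagonal (fun q => bl l q ^ p n) *
          (Matrix.diagonal a * h * ir γ) * ir (β n)) * ir γ.adjugate := by rw [h5]
      _ = (Matrix.diagonal (fun q => (a q)⁻¹) * Matrix.diagonal (fun q => bl l q ^ p n)) *
          Matrix.diagonal a * h * ir γ * ir (β n) * ir γ.adjugate := by simp only [mul_assoc]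
      _ = Matrix.diagonal (fun q => bl l q ^ p n) * (Matrix.diagonal (fun q => (a q)⁻¹) *
          Matrix.diagonal a) * h * ir γ * ir (β n) * ir γ.adjugate := by
          rw [diag_comm (fun q => (a q)⁻¹)]; simp only [mul_assoc]
      _ = _ := by rw [j2, mul_one, ir_mul, ir_mul]; simp only [mul_assoc]
  have hx := spar_of hij hedet hmem
  have hGi : ∀ q, G n q q = e q := by
    intro q
    rw [hGe, Matrix.diagonal_apply_eq]
  rw [hGi, hGi] at h3
  have hepos : ∀ q, 9 / 10 ≤ e q := by
    intro q
    have := h4 q q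
    rw [Matrix.one_apply_eq, hGi] at this
    have := abs_le.mp this
    linarith [this.1]
  -- the parameter is not zero
  have hne : Real.log |e i| - Real.log |e j| ≠ 0 := by
    intro h0
    have hpi : 0 < e i := by linarith [hepos i]
    have hpj : 0 < e j := by linarith [hepos j]
    have heq : e i = e j := by
      rw [abs_of_pos hpi, abs_of_pos hpj, sub_eq_zero] at h0
      exact Real.log_injOn_pos hpi hpj h0
    obtain ⟨q1, q2, q3⟩ := diag_inv (bl_pow_det l (p n))
    set P : Mt := Matrix.diagonal (fun q => (bl l q ^ p n)⁻¹ * e q) with hP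
    have hPy : y n * ir (β n) = P * y n := by
      rw [hP, ← diagonal_mul_diagonal, mul_assoc, ← hGe, hG n, ← mul_assoc, ← mul_assoc, q2,
        one_mul]
    have hN : NoEig (β n) := by
      have h2p : (0 : ℝ) < ((2 : ℝ) ^ p n)⁻¹ ∧ ((2 : ℝ) ^ p n)⁻¹ ≤ 1 / 2 := by
        refine ⟨by positivity, ?_⟩
        rw [one_div]
        refine inv_anti₀ (by norm_num) ?_
        calc (2 : ℝ) = 2 ^ 1 := by norm_num
          _ ≤ 2 ^ p n := pow_le_pow_right₀ (by norm_num) (hp n)
      have h4p : (4 : ℝ) ≤ (((1 : ℝ) / 4) ^ p n)⁻¹ := by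
        rw [one_div, inv_pow, inv_inv]
        calc (4 : ℝ) = 4 ^ 1 := by norm_num
          _ ≤ 4 ^ p n := pow_le_pow_right₀ (by norm_num) (hp n)
      have hup : ∀ q, e q ≤ 11 / 10 := by
        intro q
        have := h4 q q
        rw [Matrix.one_apply_eq, hGi] at this
        have := abs_le.mp this
        linarith [this.2]
      refine noEig_of_block hyd (hβ n) hPy hij hli hlj (Or.inl ⟨?_, ?_⟩) ?_ ?_ ?_ ?_ ?_
      · rw [hP, Matrix.diagonal_apply_ne _ hli.symm]
      · rw [hP, Matrix.diagonal_apply_ne _ hlj.symm]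
      · rw [hP, Matrix.diagonal_apply_eq, hbi, abs_mul, abs_of_pos h2p.1, abs_of_pos hpi]
        nlinarith [hup i, h2p.1, h2p.2]
      · rw [hP, Matrix.diagonal_apply_eq, hbj, abs_mul, abs_of_pos h2p.1, abs_of_pos hpj]
        nlinarith [hup j, h2p.1, h2p.2]
      · rw [hP, Matrix.diagonal_apply_ne _ hij, abs_zero]; norm_num
      · rw [hP, Matrix.diagonal_apply_ne _ hij.symm, abs_zero]; norm_num
      · have hbl : bl l l = 1 / 4 := by unfold bl; rw [if_pos rfl]
        rw [hP, Matrix.diagonal_apply_eq, hbl]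
        nlinarith [hepos l]
    have hrow : ∀ q, (y n) q ᵥ* il ℝ (β n) = ((bl l q ^ p n)⁻¹ * e q) • (y n) q := by
      intro q
      funext c
      have h8 : ((y n) q ᵥ* ir (β n)) c = (P * y n) q c := by rw [← hPy]; rfl
      rw [il_real, h8, hP, diagonal_mul]
      rfl
    have hyi : (y n) i ≠ 0 := by
      intro h0
      have : (y n).det = 0 := det_eq_zero_of_row_eq_zero i (fun c => congrFun h0 c)
      rw [this] at hyd; norm_num at hyd
    have hrj := hrow j
    rw [hbj, ← hbi, ← heq] at hrj
    obtain ⟨μ, hμ⟩ := eig_simple hN hyi (hrow i) hrj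
    have hdet0 : (y n).det = 0 := by
      rw [← exists_vecMul_eq_zero_iff]
      refine ⟨fun q => if q = i then μ else if q = j then -1 else 0, ?_, ?_⟩
      · intro h0
        have := congrFun h0 j
        simp only [if_neg hij.symm, if_true, Pi.zero_apply] at this
        norm_num at this
      · funext c
        change ∑ q, (if q = i then μ else if q = j then -1 else 0) * (y n) q c = 0
        have hsum : ∑ q, (if q = i then μ else if q = j then -1 else 0) * (y n) q c
            = μ * (y n) i c + (-1) * (y n) j c := by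
          have hu : (Finset.univ : Finset (Fin 3)) = {i, j, l} := by
            ext q
            simp only [Finset.mem_univ, Finset.mem_insert, Finset.mem_singleton, true_iff]
            exact three_cases hij hli hlj q
          rw [hu, Finset.sum_insert (by simp [hij, Ne.symm hli]),
            Finset.sum_insert (by simp [Ne.symm hlj]), Finset.sum_singleton]
          simp only [if_true, if_neg hij.symm, if_neg hli, if_neg hlj, zero_mul, add_zero]
        rw [hsum, hμ]
        simp only [Pi.smul_apply, smul_eq_mul]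
        ring
    rw [hdet0] at hyd
    norm_num at hyd
  rcases lt_or_gt_of_ne hne with hlt | hgt
  · refine ⟨-(Real.log |e i| - Real.log |e j|), (Spar hij h).neg_mem hx, by linarith, ?_⟩
    rw [abs_of_neg hlt] at h3
    exact h3
  · refine ⟨Real.log |e i| - Real.log |e j|, hx, hgt, ?_⟩
    rw [abs_of_pos hgt] at h3
    exact h3

/-- for closed orbits every singular orbit is dense -/
theorem dense_of_closed {g : Mt} (hS : Bd (orbitSet g)) {i j : Fin 3} (hij : i ≠ j) {h h' : Mt}
    (hh : h ∈ orbitSet g) (hh' : h' ∈ orbitSet g) : h' ∈ closure (singOrbit i j h) := by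
  have hdense : Dense ((Spar hij h : AddSubgroup ℝ) : Set ℝ) :=
    AddSubgroup.dense_of_not_isolated_zero _ fun ε hε => spar_small hS hij hh hε
  have hcont : Continuous (fun x : ℝ => Matrix.diagonal (rp i j x) * h) := by
    refine Continuous.matrix_mul (Continuous.matrix_diagonal ?_) continuous_const
    refine continuous_pi fun p => ?_
    unfold rp
    split_ifs
    · exact Real.continuous_exp.comp (continuous_id.div_const 2)
    · exact Real.continuous_exp.comp (continuous_id.div_const 2).neg
    · exact continuous_const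
  have hall : ∀ x : ℝ, Matrix.diagonal (rp i j x) * h ∈ closure (singOrbit i j h) := by
    intro x
    exact map_mem_closure (f := fun x : ℝ => Matrix.diagonal (rp i j x) * h) hcont (hdense x)
      fun y hy => hy
  have hhh : h' ∈ orbitSet h := by rw [orbit_eq hh]; exact hh'
  obtain ⟨e, he, γ, hγ, rfl⟩ := hhh
  change Matrix.diagonal e * h * ir γ ∈ _
  set x := Real.log |e i| - Real.log |e j| with hx
  have hei := abs_pos.mpr (diag_ne he i)
  have hej := abs_pos.mpr (diag_ne he j)
  set f : Fin 3 → ℝ := fun p => e p * rp i j (-x) p with hf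
  have hfdet : (Matrix.diagonal f).det = 1 := diag_mul_det he (rp_det hij (-x))
  have hfij : |f i| = |f j| := by
    simp only [hf, rp, if_true, if_neg hij.symm, abs_mul, Real.abs_exp]
    have e2 : |e i| = Real.exp (x / 2) * Real.exp (x / 2) * |e j| := by
      rw [← Real.exp_add, add_halves, hx, Real.exp_sub, Real.exp_log hei, Real.exp_log hej]
      field_simp
    have e3 : Real.exp (-x / 2) = (Real.exp (x / 2))⁻¹ := by
      rw [← Real.exp_neg]; congr 1; ring
    have e4 : Real.exp (-(-x / 2)) = Real.exp (x / 2) := by congr 1; ring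
    rw [e2, e3, e4]
    have := (Real.exp_pos (x / 2)).ne'
    field_simp
  have hfe : Matrix.diagonal e * h * ir γ
      = Matrix.diagonal f * (Matrix.diagonal (rp i j x) * h) * ir γ := by
    have : Matrix.diagonal f * Matrix.diagonal (rp i j x) = Matrix.diagonal e := by
      have h1 : Matrix.diagonal f = Matrix.diagonal e * Matrix.diagonal (rp i j (-x)) := by
        rw [diagonal_mul_diagonal]
      rw [h1, mul_assoc, ← rp_add hij, neg_add_cancel, rp_zero, mul_one]
    rw [← mul_assoc, this]
  rw [hfe]
  have hc2 : Continuous (fun N : Mt => Matrix.diagonal f * N * ir γ) :=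
    (Continuous.matrix_mul continuous_const continuous_id).matrix_mul continuous_const
  exact map_mem_closure (f := fun N : Mt => Matrix.diagonal f * N * ir γ) hc2 (hall x)
    fun N hN => sing_right (sing_left hN hfdet hfij) hγ

end M3E
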