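import Pool.Agent.M3E.ClosedOrb
import Pool.Agent.M3E.Asym

/-!
# The equivalences
-/

set_option autoImplicit false

open Matrix Filter Topology Set

namespace M3E

open Margulis3 M3C M3D

/-- a nonempty closed subset of `Y` invariant under the lattice and under `b` -/
def BSet (b : Fin 3 → ℝ) (Y Z : Set Mt) : Prop :=
  IsClosed Z ∧ Z.Nonempty ∧ Z ⊆ Y ∧ (∀ M ∈ Z, Matrix.diagonal b * M ∈ Z) ∧
    ∀ M ∈ Z, ∀ γ : Matrix (Fin 3) (Fin 3) ℤ, γ.det = 1 →
      M * γ.map (fun z : ℤ => (z : ℝ)) ∈ Z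

/-- a diagonal matrix of determinant one with an entry of modulus different from one -/
def Noncpt (b : Fin 3 → ℝ) : Prop := (Matrix.diagonal b).det = 1 ∧ ∃ q, |b q| ≠ 1

/-- no asymptotic pairs -/
def NoAsym (b : Fin 3 → ℝ) (Z : Set Mt) : Prop :=
  ∀ h u : Mt, h ∈ Z → u * h ∈ Z →
    Tendsto (fun n : ℕ => Matrix.diagonal (fun q => (b q ^ n)⁻¹) * u *
      Matrix.diagonal (fun q => b q ^ n)) atTop (𝓝 1) → u = 1

/-- countably many coordinate lines -/
def CLines (S : Set Mt) : Prop :=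
  ∃ D : Set (Fin 3 → ℝ), D.Countable ∧ ∀ M ∈ S, ∃ d ∈ D, ∃ (l : Fin 3) (c : ℝ),
    M l = c • d ∨ (fun q => M⁻¹ q l) = c • d

lemma nc_of_not_closed {g : Mt} (hg : g.det = 1) (hb : BoundedOrbit g)
    (hnc : ¬ IsClosed (orbitSet g)) : NC (closure (orbitSet g)) := by
  intro h hh hcl
  have hS := closure_bd hg hb
  have hT' : Bd (orbitSet h) := by
    have := (hS.closure_orbit hh).2
    rwa [hcl.closure_eq] at this
  have hmem : h ∈ orbitSet g := isol hS hh hcl (loc_of_closed hT')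
  apply hnc
  rw [← orbit_eq hmem]
  exact hcl

lemma NC.mono {Y Y' : Set Mt} (h : NC Y) (hsub : Y' ⊆ Y) : NC Y' := fun z hz => h z (hsub hz)

lemma clines_false {Y : Set Mt} (hY : Bd Y) (hne : NC Y) {b : Fin 3 → ℝ} (hb : Noncpt b)
    {W : Set Mt} (hWY : W ⊆ Y) (hW : Bs b W) (hC : CLines W) : False := by
  obtain ⟨hb1, q0, hq0⟩ := hb
  obtain ⟨D, hD, H⟩ := hC
  refine uncountable_lines hY hne hb1 hq0 hWY hW hD fun M hM => ?_
  obtain ⟨d, hd, l, c, h | h⟩ := H M hM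
  · exact ⟨d, hd, false, l, c, h⟩
  · exact ⟨d, hd, true, l, c, h⟩

lemma bs_of_bset {b : Fin 3 → ℝ} {Y Z : Set Mt} (h : BSet b Y Z) : Bs b Z :=
  ⟨h.1, h.2.1, h.2.2.2.1, h.2.2.2.2⟩

lemma noncpt_bl (l : Fin 3) : Noncpt (bl l) := by
  refine ⟨bl_det l, l, ?_⟩
  unfold bl
  rw [if_pos rfl]
  norm_num

lemma bset_self {Y : Set Mt} (hY : Bd Y) {b : Fin 3 → ℝ} (hb : (Matrix.diagonal b).det = 1) :
    BSet b Y Y :=
  ⟨hY.closed, hY.ne, Subset.rfl, fun M hM => hY.left M hM b hb, fun M hM γ hγ => hY.right M hM γ hγ⟩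

instance : Countable Zt := inferInstanceAs (Countable (Fin 3 → Fin 3 → ℤ))

lemma clines_orbit (g : Mt) : CLines (orbitSet g) := by
  refine ⟨range (fun γ : Zt => (g * ir γ) 0), countable_range _, ?_⟩
  rintro M ⟨a, ha, γ, hγ, rfl⟩
  refine ⟨_, ⟨γ, rfl⟩, 0, a 0, Or.inl ?_⟩
  funext q
  change (Matrix.diagonal a * g * ir γ) 0 q = a 0 * (g * ir γ) 0 q
  rw [mul_assoc, diagonal_mul]

lemma CLines.mono {S T : Set Mt} (h : CLines T) (hST : S ⊆ T) : CLines S := by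
  obtain ⟨D, hD, H⟩ := h
  exact ⟨D, hD, fun M hM => H M (hST hM)⟩

theorem equivalences {g : Mt} (hg : g.det = 1) (hb : BoundedOrbit g) :
    List.TFAE [
      IsClosed (orbitSet g),
      ∀ b : Fin 3 → ℝ, (Matrix.diagonal b).det = 1 → NoAsym b (closure (orbitSet g)),
      ∃ b Z, Noncpt b ∧ BSet b (closure (orbitSet g)) Z ∧ NoAsym b Z,
      ∃ b Z, Noncpt b ∧ BSet b (closure (orbitSet g)) Z ∧ CLines Z,
      ∃ i j : Fin 3, i ≠ j ∧ ∃ h₀ ∈ closure (orbitSet g), CLines {h | h ∈ closure (orbitSet h₀) ∧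
        ∃ t : ℝ, t ≠ 0 ∧ transvection i j t * h ∈ closure (orbitSet h₀)},
      ∀ i j : Fin 3, i ≠ j → ∀ h ∈ closure (orbitSet g),
        closure (singOrbit i j h) = closure (orbitSet g),
      ∃ i j : Fin 3, i ≠ j ∧ ∃ h₀ ∈ closure (orbitSet g), ∀ h ∈ closure (orbitSet h₀),
        ∃ h' : Mt, ∃ U ∈ 𝓝 (1 : Fin 3 → ℝ), ∀ a ∈ U, (Matrix.diagonal a).det = 1 →
          Matrix.diagonal a * h' ∈ closure (singOrbit i j h)] := by
  have hS := closure_bd hg hb
  have hgS : g ∈ closure (orbitSet g) := subset_closure (mem_orbit_self g)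
  tfae_have 1 → 2 := by
    intro hcl b hbd h u hh huh hu
    have hT : Bd (orbitSet g) := by rwa [hcl.closure_eq] at hS
    rw [hcl.closure_eq] at hh huh
    exact no_asym_of_closed hT hbd hh huh hu
  tfae_have 2 → 3 := by
    intro h
    exact ⟨bl 0, closure (orbitSet g), noncpt_bl 0, bset_self hS (bl_det 0), h _ (bl_det 0)⟩
  tfae_have 3 → 1 := by
    rintro ⟨b, Z, ⟨hb1, q0, hq0⟩, hZ, hna⟩
    by_contra hnc
    obtain ⟨k, hk, u, hu, huk, hlim⟩ := asym_pair hS (nc_of_not_closed hg hb hnc) hb1 hq0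
      hZ.2.2.1 (bs_of_bset hZ)
    exact hu (hna k u hk huk hlim)
  tfae_have 1 → 4 := by
    intro hcl
    refine ⟨bl 0, closure (orbitSet g), noncpt_bl 0, bset_self hS (bl_det 0), ?_⟩
    rw [hcl.closure_eq]
    exact clines_orbit g
  tfae_have 4 → 1 := by
    rintro ⟨b, Z, hbn, hZ, hC⟩
    by_contra hnc
    exact clines_false hS (nc_of_not_closed hg hb hnc) hbn hZ.2.2.1 (bs_of_bset hZ) hC
  tfae_have 1 → 5 := by
    intro hcl
    refine ⟨0, 1, by decide, g, hgS, ?_⟩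
    rw [hcl.closure_eq]
    exact (clines_orbit g).mono fun h hh => hh.1
  tfae_have 5 → 1 := by
    rintro ⟨i, j, hij, h₀, hh₀, hC⟩
    by_contra hnc
    obtain ⟨hsub, hY⟩ := hS.closure_orbit hh₀
    have hne := (nc_of_not_closed hg hb hnc).mono hsub
    obtain ⟨x, hx, hWne⟩ := all_roots hY hne hij
    obtain ⟨l, hli, hlj, -⟩ := third i j hij
    have hW : Bs (bl l) (Wst (closure (orbitSet h₀)) i j x) :=
      ⟨wst_closed hY.closed i j x, hWne, fun M hM => wst_inv hY x hM (bl_det l) (by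
        unfold bl; rw [if_neg (Ne.symm hli), if_neg (Ne.symm hlj)]),
        fun M hM γ hγ => wst_right hY hM hγ⟩
    exact clines_false hY hne (noncpt_bl l) (fun M hM => hM.1) hW
      (hC.mono fun M hM => ⟨hM.1, x, hx, hM.2⟩)
  tfae_have 1 → 6 := by
    intro hcl i j hij h hh
    have hT : Bd (orbitSet g) := by rwa [hcl.closure_eq] at hS
    rw [hcl.closure_eq] at hh ⊢
    refine Subset.antisymm ?_ fun h' hh' => dense_of_closed hT hij hh hh'
    refine closure_minimal ?_ hcl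
    rw [← orbit_eq hh]
    exact sing_sub_orbit i j h
  tfae_have 6 → 7 := by
    intro h
    refine ⟨0, 1, by decide, g, hgS, fun h' hh' => ⟨h', univ, univ_mem, fun a _ ha => ?_⟩⟩
    rw [h 0 1 (by decide) h' hh']
    exact hS.left _ hh' a ha
  tfae_have 7 → 1 := by
    rintro ⟨i, j, hij, h₀, hh₀, H⟩
    by_contra hnc
    obtain ⟨hsub, hY⟩ := hS.closure_orbit hh₀
    have hne := (nc_of_not_closed hg hb hnc).mono hsub
    obtain ⟨h, hh, hno⟩ := sing_not_minimal hY hne hij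
    obtain ⟨h', U, hU, hU'⟩ := H h hh
    exact hno h' U hU hU'
  tfae_finish

end M3E
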