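import Pool.Agent.M3E.Rule
import Pool.Agent.M3D.Cover

/-!
# Countably many coordinate lines on a set invariant under one diagonal element
-/

set_option autoImplicit false

open Matrix Filter Topology Set

namespace M3E

open Margulis3 M3C M3D
open Pool.Agent.Results.MP_c12988_an.CubicForm (star3 star3_mul star3_diag star3_det bounded_star
  closed_star)

/-- closed sets invariant under the lattice and one diagonal element -/
structure Bs (b : Fin 3 → ℝ) (T : Set Mt) : Prop where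
  closed : IsClosed T
  ne : T.Nonempty
  left : ∀ M ∈ T, Matrix.diagonal b * M ∈ T
  right : ∀ M ∈ T, ∀ γ : Zt, γ.det = 1 → M * ir γ ∈ T

theorem exists_min_bs {Y W : Set Mt} (hY : Bd Y) (hWY : W ⊆ Y) {b : Fin 3 → ℝ} (hW : Bs b W) :
    ∃ Z ⊆ W, Bs b Z ∧ ∀ T, Bs b T → T ⊆ Z → T = Z := by
  obtain ⟨T, hTS, hT⟩ := zorn_superset_nonempty {T : Set Mt | Bs b T ∧ T ⊆ W} (by
    intro c hc hchain hne
    obtain ⟨K, hK, hKS⟩ := hY.cpt
    have hcB : ∀ T ∈ c, Bs b T := fun T hT => (hc hT).1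
    have hcS : ∀ T ∈ c, T ⊆ W := fun T hT => (hc hT).2
    obtain ⟨T0, hT0⟩ := hne
    have : Nonempty c := ⟨⟨T0, hT0⟩⟩
    have hint : (⋂ T : c, (T : Set Mt) ∩ K).Nonempty := by
      refine IsCompact.nonempty_iInter_of_directed_nonempty_isCompact_isClosed _ ?_ ?_ ?_ ?_
      · intro A B
        rcases hchain.total A.2 B.2 with h | h
        · exact ⟨A, Subset.rfl, inter_subset_inter_left _ h⟩
        · exact ⟨B, inter_subset_inter_left _ h, Subset.rfl⟩
      · intro A
        obtain ⟨M, hM⟩ := (hcB A A.2).ne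
        obtain ⟨γ, hγ, hk⟩ := hKS M (hWY (hcS A A.2 hM))
        exact ⟨M * ir γ, (hcB A A.2).right M hM γ hγ, hk⟩
      · intro A
        exact hK.inter_left (hcB A A.2).closed
      · intro A
        exact (hcB A A.2).closed.inter hK.isClosed
    obtain ⟨M0, hM0⟩ := hint
    rw [mem_iInter] at hM0
    have hsub : ⋂₀ c ⊆ W := fun M hM => hcS T0 hT0 (hM T0 hT0)
    refine ⟨⋂₀ c, ⟨⟨isClosed_sInter fun T hT => (hcB T hT).closed, ⟨M0, ?_⟩, ?_, ?_⟩, hsub⟩,
      fun T hT => sInter_subset_of_mem hT⟩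
    · intro T hT
      exact (hM0 ⟨T, hT⟩).1
    · intro M hM T hT
      exact (hcB T hT).left M (hM T hT)
    · intro M hM γ hγ T hT
      exact (hcB T hT).right M (hM T hT) γ hγ) W ⟨hW, Subset.rfl⟩
  refine ⟨T, hTS, hT.prop.1, fun T' hT' hsub => ?_⟩
  exact Subset.antisymm hsub (hT.le_of_le ⟨hT', hsub.trans hTS⟩ hsub)

/-- every point of a minimal set is recurrent -/
lemma recur {b : Fin 3 → ℝ} {Z : Set Mt} (hZ : Bs b Z) (hmin : ∀ T, Bs b T → T ⊆ Z → T = Z)
    {z : Mt} (hz : z ∈ Z) : z ∈ closure {M | M ∈ Z ∧ ∃ n : ℕ, 1 ≤ n ∧ ∃ γ : Zt, γ.det = 1 ∧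
      M = Matrix.diagonal (fun q => b q ^ n) * z * ir γ} := by
  set T0 : Set Mt := {M | M ∈ Z ∧ ∃ n : ℕ, 1 ≤ n ∧ ∃ γ : Zt, γ.det = 1 ∧
      M = Matrix.diagonal (fun q => b q ^ n) * z * ir γ} with hT0
  have h0l : ∀ M ∈ T0, Matrix.diagonal b * M ∈ T0 := by
    rintro M ⟨hM, n, hn, γ, hγ, e⟩
    refine ⟨hZ.left M hM, n + 1, by omega, γ, hγ, ?_⟩
    rw [e, ← mul_assoc, ← mul_assoc, diagonal_mul_diagonal]
    congr 3
    funext q
    rw [pow_succ, mul_comm]
  have h0r : ∀ M ∈ T0, ∀ β : Zt, β.det = 1 → M * ir β ∈ T0 := by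
    rintro M ⟨hM, n, hn, γ, hγ, e⟩ β hβ
    refine ⟨hZ.right M hM β hβ, n, hn, γ * β, by rw [det_mul, hγ, hβ, one_mul], ?_⟩
    rw [e, ir_mul, mul_assoc]
  have hT : Bs b (closure T0) := by
    refine ⟨isClosed_closure, ?_, ?_, ?_⟩
    · refine ⟨Matrix.diagonal b * z, subset_closure ⟨hZ.left z hz, 1, le_rfl, 1, by simp, ?_⟩⟩
      rw [ir_one, mul_one]
      congr 2
      funext q
      rw [pow_one]
    · intro M hM
      have hc : Continuous (fun N : Mt => Matrix.diagonal b * N) :=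
        Continuous.matrix_mul continuous_const continuous_id
      exact map_mem_closure (f := fun N : Mt => Matrix.diagonal b * N) hc hM h0l
    · intro M hM γ hγ
      have hc : Continuous (fun N : Mt => N * ir γ) :=
        Continuous.matrix_mul continuous_id continuous_const
      exact map_mem_closure (f := fun N : Mt => N * ir γ) hc hM fun N hN => h0r N hN γ hγ
  have hsub : closure T0 ⊆ Z := closure_minimal (fun M hM => hM.1) hZ.closed
  rw [hmin _ hT hsub]
  exact hz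

/-- an integer matrix acting with a diagonal row has no integer eigenvalue -/
lemma noEig_row {y P : Mt} {β : Zt} (hnz : ∀ v : Fin 3 → ℤ, v ≠ 0 → prodForm y (cv v) ≠ 0)
    (hP : y * ir β = P * y) {l : Fin 3} (hrow : ∀ q, q ≠ l → P l q = 0)
    (hns : ∀ m : ℤ, β ≠ Matrix.diagonal (fun _ => m)) : NoEig β := by
  have hl : ∀ x : Fin 3 → ℝ, (P *ᵥ x) l = P l l * x l := by
    intro x
    change ∑ q, P l q * x q = _
    rw [Finset.sum_eq_single l]
    · intro q _ hq
      rw [hrow q hq, zero_mul]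
    · intro h; exact absurd (Finset.mem_univ l) h
  have key : ∀ v : Fin 3 → ℤ, (y *ᵥ cv (β *ᵥ v)) l = P l l * (y *ᵥ cv v) l := by
    intro v
    rw [← ir_mulVec, mulVec_mulVec, hP, ← mulVec_mulVec, hl]
  have hzero : ∀ v : Fin 3 → ℤ, (y *ᵥ cv v) l = 0 → v = 0 := by
    intro v hv
    by_contra hv0
    exact hnz v hv0 (by
      unfold prodForm
      exact Finset.prod_eq_zero (Finset.mem_univ l) hv)
  have hsc : ∀ (m : ℤ) (v : Fin 3 → ℤ), (y *ᵥ cv ((β - Matrix.diagonal (fun _ => m)) *ᵥ v)) l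
      = (P l l - m) * (y *ᵥ cv v) l := by
    intro m v
    have e : cv ((β - Matrix.diagonal (fun _ => m)) *ᵥ v) = cv (β *ᵥ v) - (m : ℝ) • cv v := by
      rw [sub_mulVec]
      funext q
      simp only [cv, Pi.sub_apply, Pi.smul_apply, smul_eq_mul, mulVec_diagonal]
      push_cast
      ring
    rw [e, mulVec_sub, mulVec_smul, Pi.sub_apply, Pi.smul_apply, key, smul_eq_mul]
    ring
  intro m hm
  by_cases hPm : P l l = m
  · obtain ⟨v, hv⟩ : ∃ v : Fin 3 → ℤ, (β - Matrix.diagonal (fun _ => m)) *ᵥ v ≠ 0 := by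
      by_contra hcon
      push Not at hcon
      apply hns m
      rw [← sub_eq_zero]
      ext a c
      have := congrFun (hcon (Pi.single c 1)) a
      rw [mulVec_single_one] at this
      exact this
    apply hv
    apply hzero
    rw [hsc, hPm, sub_self, zero_mul]
  · obtain ⟨w, hw0, hw⟩ := exists_mulVec_eq_zero_iff.mpr hm
    apply hw0
    apply hzero
    have h1 := hsc m w
    have h2 : cv ((β - Matrix.diagonal (fun _ => m)) *ᵥ w) = 0 := by
      rw [hw]; funext q; simp [cv]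
    rw [h2, mulVec_zero, Pi.zero_apply] at h1
    rcases mul_eq_zero.mp h1.symm with h3 | h3
    · exact absurd (sub_eq_zero.mp h3) hPm
    · exact h3

lemma nz_of_bd {Y : Set Mt} (hY : Bd Y) {y : Mt} (hy : y ∈ Y) (v : Fin 3 → ℤ) (hv : v ≠ 0) :
    prodForm y (cv v) ≠ 0 := by
  obtain ⟨δ, hδ, hlow⟩ := hY.low
  have := hlow y hy v hv
  intro h
  rw [h, abs_zero] at this
  linarith

/-- a diagonal row or column -/
lemma noEig_line {Y : Set Mt} (hY : Bd Y) {y P : Mt} (hy : y ∈ Y) {β : Zt}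
    (hP : y * ir β = P * y) {l : Fin 3}
    (hl : (∀ q, q ≠ l → P l q = 0) ∨ (∀ q, q ≠ l → P q l = 0))
    (hns : ∀ m : ℤ, β ≠ Matrix.diagonal (fun _ => m)) : NoEig β := by
  have hyd := hY.det y hy
  rcases hl with hl | hl
  · exact noEig_row (nz_of_bd hY hy) hP hl hns
  · have hyb : BoundedOrbit y := Bd.bounded hY hy
    have hS := closure_bd (star3_det y hyd) (bounded_star y hyb)
    have h1 : NoEig βᵀ := noEig_row (l := l)
      (nz_of_bd hS (subset_closure (mem_orbit_self (star3 y)))) (star3_relation hyd hP)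
      (fun q hq => hl q hq) (fun m hm => hns m (by
        have := congrArg Matrix.transpose hm
        rwa [transpose_transpose, diagonal_transpose] at this))
    have h2 := noEig_transpose h1
    rwa [transpose_transpose] at h2

lemma row_diag {M z : Mt} (hz : z.det = 1) {l : Fin 3} {c : ℝ} (h : M l = c • z l) (q : Fin 3)
    (hq : q ≠ l) : (M * z⁻¹) l q = 0 := by
  have e : (M * z⁻¹) l q = c * (z * z⁻¹) l q := by
    rw [Matrix.mul_apply, Matrix.mul_apply, Finset.mul_sum]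
    refine Finset.sum_congr rfl fun r _ => ?_
    have := congrFun h r
    rw [this, Pi.smul_apply, smul_eq_mul, mul_assoc]
  rw [e, mul_inv_one hz, Matrix.one_apply_ne (Ne.symm hq), mul_zero]

lemma col_diag {M z : Mt} (hM : M.det = 1) {l : Fin 3} {c : ℝ}
    (h : ∀ r, M⁻¹ r l = c * z⁻¹ r l) (q : Fin 3) (hq : q ≠ l) : (M * z⁻¹) q l = 0 := by
  have hc : c ≠ 0 := by
    rintro rfl
    have h0 : (M⁻¹).det = 0 := det_eq_zero_of_column_eq_zero l (fun r => by rw [h r, zero_mul])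
    rw [det_inv_one hM] at h0
    norm_num at h0
  have e : c * (M * z⁻¹) q l = (M * M⁻¹) q l := by
    rw [Matrix.mul_apply, Matrix.mul_apply, Finset.mul_sum]
    refine Finset.sum_congr rfl fun r _ => ?_
    rw [h r]; ring
  rw [mul_inv_one hM, Matrix.one_apply_ne hq] at e
  exact (mul_eq_zero.mp e).resolve_left hc

/-- near returns have no diagonal row or column -/
theorem no_return {Y : Set Mt} (hY : Bd Y) (hne : NC Y) {b : Fin 3 → ℝ}
    (hb : (Matrix.diagonal b).det = 1) {q0 : Fin 3} (hq0 : |b q0| ≠ 1) {z : Mt} (hz : z ∈ Y)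
    {Ms : ℕ → Mt} (hlim : Tendsto Ms atTop (𝓝 z))
    (hMs : ∀ n, ∃ p : ℕ, 1 ≤ p ∧ ∃ γ : Zt, γ.det = 1 ∧
      Ms n = Matrix.diagonal (fun q => b q ^ p) * z * ir γ) :
    ∀ᶠ n in atTop, ∀ l, ¬ ((∀ q, q ≠ l → (Ms n * z⁻¹) l q = 0) ∨
      (∀ q, q ≠ l → (Ms n * z⁻¹) q l = 0)) := by
  have hzd := hY.det z hz
  have hG1 : Tendsto (fun n => Ms n * z⁻¹) atTop (𝓝 1) := by
    have h1 := tendsto_mul' hlim (tendsto_const_nhds (x := z⁻¹))
    rwa [mul_inv_one hzd] at h1
  have hbpos : 0 < |b q0| := abs_pos.mpr (diag_ne hb q0)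
  have hgap : ∀ᶠ n in atTop, ∀ p : ℕ, 1 ≤ p → |(Ms n * z⁻¹) q0 q0| ≠ |b q0| ^ p := by
    have h1 := (tendsto_entry hG1 q0 q0).abs
    rw [Matrix.one_apply_eq, abs_one] at h1
    rcases lt_or_gt_of_ne hq0 with h | h
    · filter_upwards [h1.eventually (lt_mem_nhds h)] with n hn p hp he
      have : |b q0| ^ p ≤ |b q0| ^ 1 := pow_le_pow_of_le_one hbpos.le h.le hp
      rw [pow_one] at this
      linarith
    · filter_upwards [h1.eventually (gt_mem_nhds h)] with n hn p hp he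
      have : |b q0| ^ 1 ≤ |b q0| ^ p := pow_le_pow_right₀ h.le hp
      rw [pow_one] at this
      linarith
  filter_upwards [hgap] with n hn2 l hn1
  obtain ⟨p, hp, γ, hγ, hM⟩ := hMs n
  have hbp : (Matrix.diagonal (fun q => b q ^ p)).det = 1 := by
    rw [det_diagonal3] at hb ⊢
    rw [← mul_pow, ← mul_pow, hb, one_pow]
  obtain ⟨i1, i2, i3⟩ := diag_inv hbp
  set G : Mt := Ms n * z⁻¹ with hG
  have hGz : G * z = Ms n := by rw [hG, mul_assoc, inv_mul_one hzd, mul_one]
  set P : Mt := Matrix.diagonal (fun q => (b q ^ p)⁻¹) * G with hP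
  have hPz : z * ir γ = P * z := by
    rw [hP, mul_assoc, hGz, hM, ← mul_assoc, ← mul_assoc, i2, one_mul]
  have hent : ∀ a c, P a c = (b a ^ p)⁻¹ * G a c := by
    intro a c
    rw [hP, diagonal_mul]
  have hPl : (∀ q, q ≠ l → P l q = 0) ∨ (∀ q, q ≠ l → P q l = 0) := by
    rcases hn1 with h | h
    · left; intro q hq; rw [hent, h q hq, mul_zero]
    · right; intro q hq; rw [hent, h q hq, mul_zero]
  have hns : ∀ m : ℤ, γ ≠ Matrix.diagonal (fun _ => m) := by
    intro m hm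
    have hm1 : m = 1 := by
      have h1 : γ.det = m ^ 3 := by
        rw [hm, det_diagonal, Fin.prod_univ_three]; ring
      rw [hγ] at h1
      nlinarith [sq_nonneg (m - 1), sq_nonneg (m + 1), sq_nonneg m]
    have h2 : P = 1 := by
      have h3 : ir γ = 1 := by
        rw [hm, hm1, ir_diag, Int.cast_one, diagonal_one]
      rw [h3, mul_one] at hPz
      have := congrArg (fun N => N * z⁻¹) hPz
      rw [mul_inv_one hzd, mul_assoc, mul_inv_one hzd, mul_one] at this
      exact this.symm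
    have h3 := hent q0 q0
    rw [h2, Matrix.one_apply_eq] at h3
    have h4 : G q0 q0 = b q0 ^ p := by
      have hne' : b q0 ^ p ≠ 0 := pow_ne_zero _ (diag_ne hb q0)
      field_simp at h3
      linarith
    apply hn2 p hp
    rw [h4, abs_pow]
  exact hne z hz (closed_of_G hzd (Bd.bounded hY hz) (noEig_line hY hz hPz hPl hns) hPz hPl)

/-- the `l`-th row, or the `l`-th column of the inverse -/
noncomputable def lphi (col : Bool) (l : Fin 3) (M : Mt) : Fin 3 → ℝ :=
  if col then fun j => M⁻¹ j l else M l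

lemma lphi_ne {M : Mt} (hM : M.det = 1) (col : Bool) (l : Fin 3) : lphi col l M ≠ 0 := by
  intro h0
  cases col with
  | true =>
    have : (M⁻¹).det = 0 := det_eq_zero_of_column_eq_zero l (fun j => congrFun h0 j)
    rw [det_inv_one hM] at this; norm_num at this
  | false =>
    have : M.det = 0 := det_eq_zero_of_row_eq_zero l (fun j => congrFun h0 j)
    rw [this] at hM; norm_num at hM

/-- on a closed set invariant under the lattice and under one noncompact diagonal element, the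
coordinate lines are not countable in number -/
theorem uncountable_lines {Y : Set Mt} (hY : Bd Y) (hne : NC Y) {b : Fin 3 → ℝ}
    (hb : (Matrix.diagonal b).det = 1) {q0 : Fin 3} (hq0 : |b q0| ≠ 1) {W : Set Mt}
    (hWY : W ⊆ Y) (hW : Bs b W) {D : Set (Fin 3 → ℝ)} (hD : D.Countable)
    (H : ∀ M ∈ W, ∃ d ∈ D, ∃ (col : Bool) (l : Fin 3) (c : ℝ), lphi col l M = c • d) : False := by
  obtain ⟨Z, hZW, hZ, hmin⟩ := exists_min_bs hY hWY hW
  have : Countable D := hD.to_subtype
  have : LocallyCompactSpace Z := hZ.closed.isClosedEmbedding_subtypeVal.locallyCompactSpace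
  have : Nonempty Z := hZ.ne.to_subtype
  have hdet : ∀ M ∈ Z, M.det = 1 := fun M hM => hY.det M (hWY (hZW hM))
  set E : D × Bool × Fin 3 → Set Z := fun d => {M : Z |
    (if d.2.1 then (fun j => (M : Mt).adjugate j d.2.2) else (M : Mt) d.2.2)
      ∈ (Submodule.span ℝ {(d.1 : Fin 3 → ℝ)} : Submodule ℝ (Fin 3 → ℝ))} with hE
  have hadj : ∀ M : Mt, M.det = 1 → M⁻¹ = M.adjugate := by
    intro N hN
    rw [Matrix.inv_def, hN]; simp
  have hEphi : ∀ (d : D × Bool × Fin 3) (M : Z), M ∈ E d ↔ ∃ c : ℝ,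
      lphi d.2.1 d.2.2 (M : Mt) = c • (d.1 : Fin 3 → ℝ) := by
    intro d M
    have h1 : (if d.2.1 then (fun j => (M : Mt).adjugate j d.2.2) else (M : Mt) d.2.2)
        = lphi d.2.1 d.2.2 (M : Mt) := by
      unfold lphi
      rw [hadj _ (hdet M M.2)]
    change _ ∈ (Submodule.span ℝ {(d.1 : Fin 3 → ℝ)} : Submodule ℝ (Fin 3 → ℝ)) ↔ _
    rw [h1, Submodule.mem_span_singleton]
    constructor
    · rintro ⟨c, hc⟩; exact ⟨c, hc.symm⟩
    · rintro ⟨c, hc⟩; exact ⟨c, hc.symm⟩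
  have hEc : ∀ d, IsClosed (E d) := by
    rintro ⟨d, col, l⟩
    have hs : IsClosed ((Submodule.span ℝ {(d : Fin 3 → ℝ)} : Submodule ℝ (Fin 3 → ℝ)) :
        Set (Fin 3 → ℝ)) := Submodule.closed_of_finiteDimensional _
    refine hs.preimage ?_
    cases col with
    | true =>
      refine continuous_pi fun j => ?_
      exact ((continuous_subtype_val (p := fun M => M ∈ Z)).matrix_adjugate).matrix_elem j l
    | false =>
      refine continuous_pi fun j => ?_
      exact (continuous_subtype_val (p := fun M => M ∈ Z)).matrix_elem l j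
  have hEu : ⋃ d, E d = univ := by
    rw [eq_univ_iff_forall]
    intro M
    obtain ⟨d, hd, col, l, c, hc⟩ := H M (hZW M.2)
    rw [mem_iUnion]
    exact ⟨⟨⟨d, hd⟩, col, l⟩, (hEphi _ _).mpr ⟨c, hc⟩⟩
  obtain ⟨⟨d, col, l⟩, z0, hz0⟩ := nonempty_interior_of_iUnion_of_closed hEc hEu
  obtain ⟨O', hO'sub, hO'open, hz0O'⟩ := mem_interior.mp hz0
  obtain ⟨O, hO, hOO'⟩ := isOpen_induced_iff.mp hO'open
  have hz0O : (z0 : Mt) ∈ O := by
    have : z0 ∈ Subtype.val ⁻¹' O := by rw [hOO']; exact hz0O'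
    exact this
  set z : Mt := (z0 : Mt) with hz
  have hzZ : z ∈ Z := z0.2
  have hzd : z.det = 1 := hdet z hzZ
  obtain ⟨c0, hc0⟩ := (hEphi _ _).mp (hO'sub hz0O')
  change lphi col l z = c0 • (d : Fin 3 → ℝ) at hc0
  have hc00 : c0 ≠ 0 := by
    rintro rfl
    rw [zero_smul] at hc0
    exact lphi_ne hzd col l hc0
  have hZO : ∀ M ∈ Z, M ∈ O → ∃ c : ℝ, lphi col l M = c • lphi col l z := by
    intro M hM hMO
    have : (⟨M, hM⟩ : Z) ∈ O' := by rw [← hOO']; exact hMO
    obtain ⟨c, hc⟩ := (hEphi _ _).mp (hO'sub this)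
    refine ⟨c / c0, ?_⟩
    change lphi col l M = c • (d : Fin 3 → ℝ) at hc
    rw [hc, hc0, smul_smul, div_mul_cancel₀ _ hc00]
  have hcl := recur hZ hmin hzZ
  obtain ⟨Ms, hMs, hlim⟩ := mem_closure_iff_seq_limit.mp hcl
  have hevO : ∀ᶠ n in atTop, Ms n ∈ O := hlim (hO.mem_nhds hz0O)
  obtain ⟨n, hn, hno⟩ := (hevO.and (no_return hY hne hb hq0 (hWY (hZW hzZ)) hlim
    (fun n => (hMs n).2))).exists
  obtain ⟨c, hc⟩ := hZO _ (hMs n).1 hn
  apply hno l
  cases col with
  | true =>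
    right
    exact col_diag (hdet _ (hMs n).1) (fun r => congrFun hc r)
  | false =>
    left
    exact row_diag hzd hc

end M3E
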