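import Pool.Agent.M3E.Root

/-!
# Returns under a singular element, and the block obstruction
-/

set_option autoImplicit false

open Matrix Filter Topology Set

namespace M3E

open Margulis3 M3C M3D

/-- the singular element -/
noncomputable def bl (l : Fin 3) : Fin 3 → ℝ := fun q => if q = l then 1 / 4 else 2

lemma bl_pos (l q : Fin 3) : 0 < bl l q := by
  unfold bl; split_ifs <;> norm_num

lemma bl_det (l : Fin 3) : (Matrix.diagonal (bl l)).det = 1 := by
  rw [det_diagonal3]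
  have h : ∀ l : Fin 3, l = 0 ∨ l = 1 ∨ l = 2 := by decide
  rcases h l with rfl | rfl | rfl
  · rw [show bl 0 0 = 1 / 4 from if_pos rfl, show bl 0 1 = 2 from if_neg (by decide),
      show bl 0 2 = 2 from if_neg (by decide)]
    norm_num
  · rw [show bl 1 0 = 2 from if_neg (by decide), show bl 1 1 = 1 / 4 from if_pos rfl,
      show bl 1 2 = 2 from if_neg (by decide)]
    norm_num
  · rw [show bl 2 0 = 2 from if_neg (by decide), show bl 2 1 = 2 from if_neg (by decide),
      show bl 2 2 = 1 / 4 from if_pos rfl]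
    norm_num

lemma bl_pow_det (l : Fin 3) (p : ℕ) : (Matrix.diagonal (fun q => bl l q ^ p)).det = 1 := by
  have h := bl_det l
  rw [det_diagonal3] at h ⊢
  rw [← mul_pow, ← mul_pow, h, one_pow]

lemma bl_pow_mem {W : Set Mt} {l : Fin 3} (hWb : ∀ M ∈ W, Matrix.diagonal (bl l) * M ∈ W)
    {z : Mt} (hz : z ∈ W) (n : ℕ) : Matrix.diagonal (fun q => bl l q ^ n) * z ∈ W := by
  induction n with
  | zero => simpa using hz
  | succ n ih =>
    have h := hWb _ ih
    rw [← mul_assoc, diagonal_mul_diagonal] at h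
    have e : (fun q => bl l q ^ (n + 1)) = fun q => bl l q * bl l q ^ n := by
      funext q; rw [pow_succ, mul_comm]
    rw [e]; exact h

lemma returns {Y W : Set Mt} (hY : Bd Y) (hWY : W ⊆ Y)
    (hWΓ : ∀ M ∈ W, ∀ γ : Zt, γ.det = 1 → M * ir γ ∈ W) (l : Fin 3)
    (hWb : ∀ M ∈ W, Matrix.diagonal (bl l) * M ∈ W) (hne : W.Nonempty) :
    ∃ (y G : ℕ → Mt) (β : ℕ → Zt) (p : ℕ → ℕ), (∀ n, y n ∈ W) ∧ (∀ n, G n * y n ∈ W) ∧
      (∀ n, 1 ≤ p n) ∧ (∀ n, (β n).det = 1) ∧
      (∀ n, G n * y n = Matrix.diagonal (fun q => bl l q ^ p n) * y n * ir (β n)) ∧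
      Tendsto G atTop (𝓝 1) ∧ ∃ k, Tendsto y atTop (𝓝 k) := by
  obtain ⟨z, hz⟩ := hne
  obtain ⟨K, hK, hKm⟩ := hY.cpt
  have hzn := bl_pow_mem hWb hz
  choose γ hγ hγK using fun n => hKm _ (hWY (hzn n))
  obtain ⟨k, hk, φ, hφ, hlim⟩ := hK.tendsto_subseq hγK
  set t : ℕ → Mt := fun n => Matrix.diagonal (fun q => bl l q ^ n) * z * ir (γ n) with ht
  have htW : ∀ n, t n ∈ W := fun n => hWΓ _ (hzn n) _ (hγ n)
  have htd : ∀ n, (t n).det = 1 := fun n => hY.det _ (hWY (htW n))
  have hkd : k.det = 1 := tendsto_det hlim (Eventually.of_forall fun n => htd _)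
  have hG : ∀ n, t (φ (n + 1)) * (t (φ n))⁻¹ * t (φ n) = t (φ (n + 1)) := by
    intro n
    rw [mul_assoc, inv_mul_one (htd _), mul_one]
  refine ⟨fun n => t (φ n), fun n => t (φ (n + 1)) * (t (φ n))⁻¹,
    fun n => (γ (φ n)).adjugate * γ (φ (n + 1)), fun n => φ (n + 1) - φ n, fun n => htW _, ?_, ?_,
    ?_, ?_, ?_, k, hlim⟩
  · intro n
    have h1 := htW (φ (n + 1))
    rw [← hG n] at h1
    exact h1
  · intro n
    have h1 : φ n < φ (n + 1) := hφ (Nat.lt_succ_self n)
    change 1 ≤ φ (n + 1) - φ n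
    omega
  · intro n
    rw [det_mul, adj_det (hγ _), hγ, one_mul]
  · intro n
    change t (φ (n + 1)) * (t (φ n))⁻¹ * t (φ n) = _
    rw [hG n]
    have h1 : φ n < φ (n + 1) := hφ (Nat.lt_succ_self n)
    have e1 : Matrix.diagonal (fun q => bl l q ^ (φ (n + 1)))
        = Matrix.diagonal (fun q => bl l q ^ (φ (n + 1) - φ n)) *
          Matrix.diagonal (fun q => bl l q ^ (φ n)) := by
      rw [diagonal_mul_diagonal]
      congr 1
      funext q
      rw [← pow_add]
      congr 1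
      omega
    simp only [ht]
    rw [e1, ir_mul]
    calc Matrix.diagonal (fun q => bl l q ^ (φ (n + 1) - φ n)) *
          Matrix.diagonal (fun q => bl l q ^ (φ n)) * z * ir (γ (φ (n + 1)))
        = Matrix.diagonal (fun q => bl l q ^ (φ (n + 1) - φ n)) *
          (Matrix.diagonal (fun q => bl l q ^ (φ n)) * z) * 1 * ir (γ (φ (n + 1))) := by
            rw [mul_one]; simp only [mul_assoc]
      _ = _ := by
            rw [← ir_mul_adj (hγ (φ n))]; simp only [mul_assoc]
  · have h1 : Tendsto (fun n => t (φ (n + 1))) atTop (𝓝 k) := hlim.comp (tendsto_add_atTop_nat 1)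
    have h2 := tendsto_inv hlim (Eventually.of_forall fun n => htd _) hkd
    have h3 := tendsto_mul' h1 h2
    rw [mul_inv_one hkd] at h3
    exact h3

lemma det_block {M : Mt} {i j l : Fin 3} (hij : i ≠ j) (hli : l ≠ i) (hlj : l ≠ j)
    (h : (M i l = 0 ∧ M j l = 0) ∨ (M l i = 0 ∧ M l j = 0)) :
    M.det = M l l * (M i i * M j j - M i j * M j i) := by
  rw [det_fin_three]
  fin_cases i <;> fin_cases j <;> first | exact absurd rfl hij | skip
  all_goals fin_cases l <;> first | exact absurd rfl hli | exact absurd rfl hlj | skip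
  all_goals
    simp only [Fin.zero_eta, Fin.mk_one, Fin.reduceFinMk] at h ⊢
    rcases h with ⟨h1, h2⟩ | ⟨h1, h2⟩ <;> rw [h1, h2] <;> ring

lemma unit_of_eig {β : Zt} (hβ : β.det = 1) {m : ℤ}
    (h : (β - Matrix.diagonal (fun _ => m)).det = 0) : m = 1 ∨ m = -1 := by
  have hd : m ∣ 1 := by
    have e : (1 : ℤ) = β.det - (β - Matrix.diagonal (fun _ => m)).det := by rw [h, hβ]; ring
    rw [e, det_fin_three, det_fin_three]
    simp only [Matrix.sub_apply, Matrix.diagonal_apply]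
    simp only [Fin.isValue, if_true, sub_zero, show (0 : Fin 3) ≠ 1 from by decide,
      show (0 : Fin 3) ≠ 2 from by decide, show (1 : Fin 3) ≠ 0 from by decide,
      show (1 : Fin 3) ≠ 2 from by decide, show (2 : Fin 3) ≠ 0 from by decide,
      show (2 : Fin 3) ≠ 1 from by decide, if_false]
    refine ⟨(β 0 0 * β 1 1 + β 0 0 * β 2 2 + β 1 1 * β 2 2 - β 0 1 * β 1 0 - β 0 2 * β 2 0
      - β 1 2 * β 2 1) - m * (β 0 0 + β 1 1 + β 2 2) + m ^ 2, ?_⟩
    ring
  exact Int.isUnit_iff.mp (isUnit_of_dvd_one hd)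

lemma noEig_of_block {y P : Mt} (hyd : y.det = 1) {β : Zt} (hβ : β.det = 1)
    (hP : y * ir β = P * y) {i j l : Fin 3} (hij : i ≠ j) (hli : l ≠ i) (hlj : l ≠ j)
    (h : (P i l = 0 ∧ P j l = 0) ∨ (P l i = 0 ∧ P l j = 0))
    (hii : |P i i| ≤ 11 / 20) (hjj : |P j j| ≤ 11 / 20) (h1 : |P i j| ≤ 1 / 20)
    (h2 : |P j i| ≤ 1 / 20) (hll : 2 ≤ P l l) : NoEig β := by
  intro m hm
  have hm1 := unit_of_eig hβ hm
  have e1 : (ir β - Matrix.diagonal (fun _ => (m : ℝ))).det = 0 := by
    have e0 : ir (β - Matrix.diagonal (fun _ => m)) = ir β - Matrix.diagonal (fun _ => (m : ℝ)) := by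
      rw [ir_sub, ir_diag]
    rw [← e0]
    have : ((β - Matrix.diagonal (fun _ => m)).map (Int.castRingHom ℝ)).det
        = (((β - Matrix.diagonal (fun _ => m)).det : ℤ) : ℝ) := by
      rw [← RingHom.mapMatrix_apply, ← RingHom.map_det]; rfl
    rw [hm, Int.cast_zero] at this
    exact this
  have e2 : (P - Matrix.diagonal (fun _ => (m : ℝ))) * y
      = y * (ir β - Matrix.diagonal (fun _ => (m : ℝ))) := by
    rw [sub_mul, mul_sub, hP]
    congr 1
    ext a b
    rw [diagonal_mul, mul_diagonal, mul_comm]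
  have e3 : (P - Matrix.diagonal (fun _ => (m : ℝ))).det = 0 := by
    have := congrArg Matrix.det e2
    rw [det_mul, det_mul, e1, mul_zero, hyd, mul_one] at this
    exact this
  have e4 := det_block (M := P - Matrix.diagonal (fun _ => (m : ℝ))) hij hli hlj (by
    simp only [Matrix.sub_apply, Matrix.diagonal_apply_ne _ (Ne.symm hli),
      Matrix.diagonal_apply_ne _ (Ne.symm hlj), Matrix.diagonal_apply_ne _ hli,
      Matrix.diagonal_apply_ne _ hlj, sub_zero]
    exact h)
  simp only [Matrix.sub_apply, Matrix.diagonal_apply_eq, Matrix.diagonal_apply_ne _ hij,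
    Matrix.diagonal_apply_ne _ hij.symm, sub_zero] at e4
  rw [e3] at e4
  have a1 := abs_le.mp hii
  have a2 := abs_le.mp hjj
  have a5 : P i j * P j i ≤ 1 / 400 := by
    have : |P i j * P j i| ≤ 1 / 20 * (1 / 20) := by
      rw [abs_mul]; exact mul_le_mul h1 h2 (abs_nonneg _) (by norm_num)
    have := (abs_le.mp this).2
    linarith
  rcases hm1 with rfl | rfl
  · push_cast at e4
    have h5 : 0 < P l l - 1 := by linarith
    have h6 : 0 < (P i i - 1) * (P j j - 1) - P i j * P j i := by nlinarith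
    have := mul_pos h5 h6
    linarith
  · push_cast at e4
    have h5 : 0 < P l l - (-1) := by linarith
    have h6 : 0 < (P i i - (-1)) * (P j j - (-1)) - P i j * P j i := by nlinarith
    have := mul_pos h5 h6
    linarith

/-- near returns under the singular element have no block structure -/
theorem no_block {Y : Set Mt} (hY : Bd Y) (hne : NC Y) {y G : Mt} {β : Zt} {p : ℕ}
    {i j l : Fin 3} (hij : i ≠ j) (hli : l ≠ i) (hlj : l ≠ j) (hy : y ∈ Y) (hp : 1 ≤ p)
    (hβ : β.det = 1) (hG : G * y = Matrix.diagonal (fun q => bl l q ^ p) * y * ir β)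
    (hcl : ∀ a b, |G a b - (1 : Mt) a b| ≤ 1 / 10) :
    ¬ ((G i l = 0 ∧ G j l = 0) ∨ (G l i = 0 ∧ G l j = 0)) := by
  intro h
  have hyd := hY.det y hy
  obtain ⟨i1, i2, i3⟩ := diag_inv (bl_pow_det l p)
  set P : Mt := Matrix.diagonal (fun q => (bl l q ^ p)⁻¹) * G with hP
  have hPy : y * ir β = P * y := by
    rw [hP, mul_assoc, hG]
    rw [← mul_assoc, ← mul_assoc, i2, one_mul]
  have hent : ∀ a b, P a b = (bl l a ^ p)⁻¹ * G a b := by
    intro a b
    rw [hP, diagonal_mul]
  have hblock : (P i l = 0 ∧ P j l = 0) ∨ (P l i = 0 ∧ P l j = 0) := by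
    simp only [hent]
    rcases h with ⟨h1, h2⟩ | ⟨h1, h2⟩
    · left; rw [h1, h2]; simp
    · right; rw [h1, h2]; simp
  have hbi : bl l i = 2 := by unfold bl; rw [if_neg (Ne.symm hli)]
  have hbj : bl l j = 2 := by unfold bl; rw [if_neg (Ne.symm hlj)]
  have hbl : bl l l = 1 / 4 := by unfold bl; rw [if_pos rfl]
  have h2p : (0 : ℝ) < ((2 : ℝ) ^ p)⁻¹ ∧ ((2 : ℝ) ^ p)⁻¹ ≤ 1 / 2 := by
    refine ⟨by positivity, ?_⟩
    rw [one_div]
    refine inv_anti₀ (by norm_num) ?_
    calc (2 : ℝ) = 2 ^ 1 := by norm_num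
      _ ≤ 2 ^ p := pow_le_pow_right₀ (by norm_num) hp
  have h4p : (4 : ℝ) ≤ (((1 : ℝ) / 4) ^ p)⁻¹ := by
    rw [one_div, inv_pow, inv_inv]
    calc (4 : ℝ) = 4 ^ 1 := by norm_num
      _ ≤ 4 ^ p := pow_le_pow_right₀ (by norm_num) hp
  have hoff : ∀ a b, a ≠ b → |G a b| ≤ 1 / 10 := by
    intro a b hab
    have := hcl a b
    rwa [Matrix.one_apply_ne hab, sub_zero] at this
  have hdiag : ∀ a, 9 / 10 ≤ G a a ∧ G a a ≤ 11 / 10 := by
    intro a
    have := hcl a a
    rw [Matrix.one_apply_eq] at this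
    have := abs_le.mp this
    constructor <;> linarith [this.1, this.2]
  have hdiag' : ∀ a, |G a a| ≤ 11 / 10 := by
    intro a
    have := hdiag a
    rw [abs_le]; constructor <;> linarith
  have hsm : ∀ a b : Fin 3, ∀ c : ℝ, bl l a = 2 → |G a b| ≤ c → |P a b| ≤ c / 2 := by
    intro a b c ha hc
    rw [hent, ha, abs_mul, abs_of_pos h2p.1]
    calc ((2 : ℝ) ^ p)⁻¹ * |G a b| ≤ 1 / 2 * c :=
          mul_le_mul h2p.2 hc (abs_nonneg _) (by norm_num)
      _ = c / 2 := by ring
  have hN : NoEig β := by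
    refine noEig_of_block hyd hβ hPy hij hli hlj hblock ?_ ?_ ?_ ?_ ?_
    · refine (hsm i i _ hbi (hdiag' i)).trans (by norm_num)
    · refine (hsm j j _ hbj (hdiag' j)).trans (by norm_num)
    · refine (hsm i j _ hbi (hoff i j hij)).trans (by norm_num)
    · refine (hsm j i _ hbj (hoff j i hij.symm)).trans (by norm_num)
    · rw [hent, hbl]
      have := (hdiag l).1
      nlinarith
  refine hne y hy (closed_of_G hyd (Bd.bounded hY hy) hN hPy (l := l) ?_)
  have hall := three_cases hij hli hlj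
  rcases hblock with ⟨h1, h2⟩ | ⟨h1, h2⟩
  · right
    intro q hq
    rcases hall q with rfl | rfl | rfl
    · exact h1
    · exact h2
    · exact absurd rfl hq
  · left
    intro q hq
    rcases hall q with rfl | rfl | rfl
    · exact h1
    · exact h2
    · exact absurd rfl hq

end M3E
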