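import Pool.Agent.M3E.Blow

/-!
# The first root pair, scaling of pairs
-/

set_option autoImplicit false

open Matrix Filter Topology Set

namespace M3E

open Margulis3 M3C M3D

/-- scaling a pair to its part of weight zero -/
theorem pair_scale {Y : Set Mt} (hY : Bd Y) {k v : Mt} (hk : k ∈ Y) (hvk : v * k ∈ Y)
    {e : Fin 3 → ℤ} (he : e 0 + e 1 + e 2 = 0) (hve : ∀ p q, e q < e p → v p q = 0) :
    ∃ k' ∈ Y, (Matrix.of fun p q => if e p = e q then v p q else 0) * k' ∈ Y := by
  set F : Ultrafilter ℕ := hyperfilter ℕ with hF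
  have hFle : (F : Filter ℕ) ≤ atTop := Nat.hyperfilter_le_atTop
  have hpos : ∀ n : ℕ, (0 : ℝ) < 2 ^ n := fun n => by positivity
  have hdet : ∀ n : ℕ, (Matrix.diagonal (fun p => ((2 : ℝ) ^ n) ^ e p)).det = 1 :=
    fun n => det_zpow (hpos n) he
  refine limit_pair hY hY.closed Subset.rfl hY.right F (y := fun _ => k) (v := fun _ => v)
    (a := fun n p => ((2 : ℝ) ^ n) ^ e p) (Eventually.of_forall hdet)
    (Eventually.of_forall fun n => hY.left _ hk _ (hdet n))
    (Eventually.of_forall fun n => hY.left _ hvk _ (hdet n)) ?_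
  refine tendsto_mat fun p q => ?_
  have hentry : ∀ n : ℕ, (Matrix.diagonal (fun p => ((2 : ℝ) ^ n) ^ e p) * v *
      Matrix.diagonal (fun i => (((2 : ℝ) ^ n) ^ e i)⁻¹)) p q
        = ((2 : ℝ) ^ n) ^ (e p - e q) * v p q := by
    intro n
    rw [conj_entry, zpow_sub₀ (hpos n).ne']
    field_simp
  have hgoal : Tendsto (fun n : ℕ => ((2 : ℝ) ^ n) ^ (e p - e q) * v p q) F
      (𝓝 (if e p = e q then v p q else 0)) := by
    rcases lt_trichotomy (e p) (e q) with h | h | h
    · rw [if_neg h.ne]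
      obtain ⟨d, hd⟩ : ∃ d : ℕ, e q - e p = d := ⟨(e q - e p).toNat, by omega⟩
      have hd0 : d ≠ 0 := by omega
      have h0 : Tendsto (fun n : ℕ => ((1 / 2 : ℝ)) ^ n) F (𝓝 0) :=
        (tendsto_pow_atTop_nhds_zero_of_lt_one (by norm_num) (by norm_num)).mono_left hFle
      have h1 : Tendsto (fun n : ℕ => (((1 / 2 : ℝ)) ^ n) ^ d * v p q) F (𝓝 (0 ^ d * v p q)) :=
        (h0.pow d).mul tendsto_const_nhds
      rw [zero_pow hd0, zero_mul] at h1
      refine h1.congr' (Eventually.of_forall fun n => ?_)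
      change _ = ((2 : ℝ) ^ n) ^ (e p - e q) * v p q
      have h2 : e p - e q = -(d : ℤ) := by omega
      rw [h2, _root_.zpow_neg, zpow_natCast, one_div, inv_pow, inv_pow]
    · rw [if_pos h]
      refine tendsto_const_nhds.congr' (Eventually.of_forall fun n => ?_)
      change _ = ((2 : ℝ) ^ n) ^ (e p - e q) * v p q
      rw [h, sub_self, zpow_zero, one_mul]
    · rw [if_neg h.ne']
      refine tendsto_const_nhds.congr' (Eventually.of_forall fun n => ?_)
      change _ = ((2 : ℝ) ^ n) ^ (e p - e q) * v p q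
      rw [hve p q h, mul_zero]
  exact hgoal.congr' (Eventually.of_forall fun n => (hentry n).symm)

lemma transv_apply {i j : Fin 3} (hij : i ≠ j) (x : ℝ) (p q : Fin 3) :
    transvection i j x p q = if p = q then 1 else if p = i ∧ q = j then x else 0 := by
  simp only [transvection, Matrix.add_apply, Matrix.single_apply, Matrix.one_apply]
  by_cases hpq : p = q
  · subst hpq
    rw [if_pos rfl, if_pos rfl, if_neg, add_zero]
    rintro ⟨rfl, rfl⟩; exact hij rfl
  · rw [if_neg hpq, if_neg hpq, zero_add]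
    by_cases h : i = p ∧ j = q
    · rw [if_pos h, if_pos ⟨h.1.symm, h.2.symm⟩]
    · rw [if_neg h, if_neg (fun h' => h ⟨h'.1.symm, h'.2.symm⟩)]

lemma ex_sum (r : Fin 3) : (if (0 : Fin 3) = r then (-2 : ℤ) else 1) +
    (if (1 : Fin 3) = r then (-2 : ℤ) else 1) + (if (2 : Fin 3) = r then (-2 : ℤ) else 1) = 0 := by
  revert r; decide

lemma ex_sum' (r : Fin 3) : (if (0 : Fin 3) = r then (2 : ℤ) else -1) +
    (if (1 : Fin 3) = r then (2 : ℤ) else -1) + (if (2 : Fin 3) = r then (2 : ℤ) else -1) = 0 := by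
  revert r; decide

lemma pm_sum {i j : Fin 3} (hij : i ≠ j) :
    (if (0 : Fin 3) = i then (1 : ℤ) else if (0 : Fin 3) = j then -1 else 0) +
    (if (1 : Fin 3) = i then (1 : ℤ) else if (1 : Fin 3) = j then -1 else 0) +
    (if (2 : Fin 3) = i then (1 : ℤ) else if (2 : Fin 3) = j then -1 else 0) = 0 := by
  revert i j; decide

lemma three_cases {i j l : Fin 3} (hij : i ≠ j) (hli : l ≠ i) (hlj : l ≠ j) (p : Fin 3) :
    p = i ∨ p = j ∨ p = l := by
  revert i j l p; decide

theorem scale_root {Y : Set Mt} (hY : Bd Y) {k v : Mt} (hk : k ∈ Y) (hvk : v * k ∈ Y)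
    (hv : ∀ p, v p p = 1) {p0 q0 r0 : Fin 3} (hpq : p0 ≠ q0) (hrp : r0 ≠ p0) (hrq : r0 ≠ q0)
    (hqp : v q0 p0 = 0) (h : (v p0 r0 = 0 ∧ v q0 r0 = 0) ∨ (v r0 p0 = 0 ∧ v r0 q0 = 0)) :
    (Wst Y p0 q0 (v p0 q0)).Nonempty := by
  have hall := three_cases hpq hrp hrq
  rcases h with ⟨h1, h2⟩ | ⟨h1, h2⟩
  · obtain ⟨k', hk', hvk'⟩ := pair_scale hY hk hvk (e := fun p => if p = r0 then (-2 : ℤ) else 1)
      (ex_sum r0) (by
        intro p q hlt
        rcases hall q with rfl | rfl | rfl
        · rw [if_neg (Ne.symm hrp)] at hlt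
          split_ifs at hlt <;> omega
        · rw [if_neg (Ne.symm hrq)] at hlt
          split_ifs at hlt <;> omega
        · rcases hall p with rfl | rfl | rfl
          · exact h1
          · exact h2
          · exact absurd hlt (lt_irrefl _))
    refine ⟨k', hk', ?_⟩
    convert hvk' using 2
    ext p q
    rw [transv_apply hpq, Matrix.of_apply]
    rcases hall p with rfl | rfl | rfl <;> rcases hall q with rfl | rfl | rfl <;>
      simp [hpq, hrp, hrq, hpq.symm, hrp.symm, hrq.symm, hv, hqp]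
  · obtain ⟨k', hk', hvk'⟩ := pair_scale hY hk hvk (e := fun p => if p = r0 then (2 : ℤ) else -1)
      (ex_sum' r0) (by
        intro p q hlt
        rcases hall p with rfl | rfl | rfl
        · rw [if_neg (Ne.symm hrp)] at hlt
          split_ifs at hlt <;> omega
        · rw [if_neg (Ne.symm hrq)] at hlt
          split_ifs at hlt <;> omega
        · rcases hall q with rfl | rfl | rfl
          · exact h1
          · exact h2
          · exact absurd hlt (lt_irrefl _))
    refine ⟨k', hk', ?_⟩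
    convert hvk' using 2
    ext p q
    rw [transv_apply hpq, Matrix.of_apply]
    rcases hall p with rfl | rfl | rfl <;> rcases hall q with rfl | rfl | rfl <;>
      simp [hpq, hrp, hrq, hpq.symm, hrp.symm, hrq.symm, hv, hqp]

/-- without closed orbits there is a pair on some root leaf -/
theorem exists_pair {Y : Set Mt} (hY : Bd Y) (hne : NC Y) :
    ∃ i j : Fin 3, i ≠ j ∧ ∃ s : ℝ, s ≠ 0 ∧ (Wst Y i j s).Nonempty := by
  have hnl := not_loc hY hne
  unfold Loc at hnl
  push Not at hnl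
  obtain ⟨M, hM, hcon⟩ := hnl
  have hcl : M ∈ closure {N : Mt | N ∈ Y ∧ ∀ d : Fin 3 → ℝ, (Matrix.diagonal d).det = 1 →
      N ≠ Matrix.diagonal d * M} := by
    rw [mem_closure_iff_nhds]
    intro t ht
    obtain ⟨N, hN, hNt, h⟩ := hcon t ht
    exact ⟨N, hNt, hN, h⟩
  obtain ⟨Ms, hMs, hlim0⟩ := mem_closure_iff_seq_limit.mp hcl
  set F : Ultrafilter ℕ := hyperfilter ℕ with hF
  have hlim : Tendsto Ms F (𝓝 M) := hlim0.mono_left Nat.hyperfilter_le_atTop
  have hMdet := hY.det M hM
  set G : ℕ → Mt := fun n => Ms n * M⁻¹ with hGdef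
  have hG1 : Tendsto G F (𝓝 1) := by
    have h1 := tendsto_mul' hlim (tendsto_const_nhds (x := M⁻¹))
    rwa [mul_inv_one hMdet] at h1
  have hGdet : ∀ n, (G n).det = 1 := by
    intro n
    rw [hGdef]
    simp only
    rw [det_mul, hY.det _ (hMs n).1, det_inv_one hMdet, one_mul]
  have hGM : ∀ n, G n * M = Ms n := by
    intro n
    rw [hGdef]
    simp only
    rw [mul_assoc, inv_mul_one hMdet, mul_one]
  -- the largest off-diagonal entry
  have hmax : ∀ n, ∃ p : Fin 3 × Fin 3, p.1 ≠ p.2 ∧ G n p.1 p.2 ≠ 0 ∧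
      ∀ i j, i ≠ j → |G n i j| ≤ |G n p.1 p.2| := by
    intro n
    obtain ⟨p, hp, hpmax⟩ := Finset.exists_max_image
      (Finset.univ.filter (fun p : Fin 3 × Fin 3 => p.1 ≠ p.2)) (fun p => |G n p.1 p.2|)
      ⟨(0, 1), by simp⟩
    rw [Finset.mem_filter] at hp
    have h1 : ∀ i j, i ≠ j → |G n i j| ≤ |G n p.1 p.2| := by
      intro i j hij
      exact hpmax (i, j) (by simp [hij])
    refine ⟨p, hp.2, ?_, h1⟩
    intro h0
    have h2 : ∀ i j, i ≠ j → G n i j = 0 := by
      intro i j hij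
      have h3 := h1 i j hij
      rw [h0, abs_zero] at h3
      exact abs_nonpos_iff.mp h3
    obtain ⟨h3, h4⟩ := diag_of_off (hGdet n) h2
    refine (hMs n).2 _ h4 ?_
    rw [← h3, hGM]
  choose p hp1 hp2 hp3 using hmax
  obtain ⟨q, -, hq⟩ := ult_fin F p Set.univ Set.finite_univ (Eventually.of_forall fun _ => mem_univ _)
  obtain ⟨i, j⟩ := q
  have hij : i ≠ j := by
    obtain ⟨n, hn⟩ := hq.exists
    have := hp1 n
    rw [hn] at this
    exact this
  obtain ⟨v0, hv0, hv0', k, hk, hvk⟩ := blowup hY hY.closed Subset.rfl hY.right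
    (e := fun p => if p = i then (1 : ℤ) else if p = j then -1 else 0)
    (pm_sum hij) (R := 2) (by norm_num)
    (by
      intro p q
      split_ifs <;> norm_num)
    (by
      intro M' hM' t ht
      exact hY.left _ hM' _ (det_zpow ht (pm_sum hij))) F (y := fun _ => M) (G := G) (fun _ => hM)
    (fun n => by rw [hGM n]; exact (hMs n).1) hG1 (p0 := i) (q0 := j)
    (by rw [if_pos rfl, if_neg hij.symm, if_pos rfl]; norm_num)
    (by
      filter_upwards [hq] with n hn
      have := hp2 n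
      rw [hn] at this
      exact this)
    (by
      filter_upwards [hq] with n hn
      intro p' q' hlt
      have hne' : p' ≠ q' := by rintro rfl; exact lt_irrefl _ hlt
      have := hp3 n p' q' hne'
      rw [hn] at this
      exact this)
  refine ⟨i, j, hij, v0 i j, hv0', k, hk, ?_⟩
  convert hvk using 2
  ext p' q'
  rw [transv_apply hij]
  by_cases h : p' = i ∧ q' = j
  · obtain ⟨rfl, rfl⟩ := h
    rw [if_neg hij, if_pos ⟨rfl, rfl⟩]
  · rw [if_neg h, hv0 p' q' ?_, Matrix.one_apply]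
    intro h2
    apply h
    have hp' : p' = i := by
      by_contra h3
      rw [if_neg h3] at h2
      split_ifs at h2 <;> norm_num at h2
    refine ⟨hp', ?_⟩
    by_contra h3
    rw [if_pos hp'] at h2
    split_ifs at h2 <;> norm_num at h2

end M3E
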