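import Pool.Agent.M3E.Return

/-!
# From one root to all six roots
-/

set_option autoImplicit false

open Matrix Filter Topology Set

namespace M3E

open Margulis3 M3C M3D

lemma near_one {G : ℕ → Mt} {F : Filter ℕ} (hG : Tendsto G F (𝓝 1)) :
    ∀ᶠ n in F, ∀ a b, |G n a b - (1 : Mt) a b| ≤ 1 / 10 := by
  rw [eventually_all]
  intro a
  rw [eventually_all]
  intro b
  have h := (Metric.tendsto_nhds.mp (tendsto_entry hG a b)) (1 / 10) (by norm_num)
  filter_upwards [h] with n hn
  rw [Real.dist_eq] at hn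
  exact hn.le

lemma conj_transv (i j : Fin 3) (s : ℝ) (M : Mt) (p q : Fin 3) :
    (transvection i j s * M * transvection i j (-s)) p q
      = (M p q + (if p = i then s * M j q else 0))
        - (if q = j then s * (M p i + (if p = i then s * M j i else 0)) else 0) := by
  have h1 : ∀ b, (transvection i j s * M) p b = M p b + (if p = i then s * M j b else 0) := by
    intro b
    by_cases hp : p = i
    · subst hp
      rw [transvection_mul_apply_same, if_pos rfl]
    · rw [transvection_mul_apply_of_ne _ _ _ _ hp, if_neg hp, add_zero]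
  by_cases hq : q = j
  · subst hq
    rw [mul_transvection_apply_same, h1, h1, if_pos rfl]
    ring
  · rw [mul_transvection_apply_of_ne _ _ _ _ hq, h1, if_neg hq, sub_zero]

lemma transv_cancel {i j : Fin 3} (hij : i ≠ j) (s : ℝ) :
    transvection i j (-s) * transvection i j s = (1 : Mt) := by
  rw [transvection_mul_transvection_same _ _ hij, neg_add_cancel, transvection_zero]

lemma wst_inv {Y : Set Mt} (hY : Bd Y) {i j : Fin 3} (s : ℝ) {M : Mt}
    (hM : M ∈ Wst Y i j s) {a : Fin 3 → ℝ} (ha : (Matrix.diagonal a).det = 1) (hij : a i = a j) :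
    Matrix.diagonal a * M ∈ Wst Y i j s := by
  have h := wst_left hY hM ha
  rwa [hij, mul_inv_cancel₀ (diag_ne ha j), one_mul] at h

theorem rule_col {Y : Set Mt} (hY : Bd Y) (hne : NC Y) {i j l : Fin 3} (hij : i ≠ j)
    (hli : l ≠ i) (hlj : l ≠ j) {s : ℝ} (hs : s ≠ 0) (hW : (Wst Y i j s).Nonempty) :
    ∃ x : ℝ, x ≠ 0 ∧ (Wst Y i l x).Nonempty := by
  have hall := three_cases hij hli hlj
  obtain ⟨y, G, β, p, hy, hGy, hp, hβ, hG, hlim0, -⟩ := returns (W := Wst Y i j s) hY
    (fun M hM => hM.1) (fun M hM γ hγ => wst_right hY hM hγ) l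
    (fun M hM => wst_inv hY s hM (bl_det l) (by
      unfold bl; rw [if_neg (Ne.symm hli), if_neg (Ne.symm hlj)])) hW
  set F : Ultrafilter ℕ := hyperfilter ℕ with hF
  have hlim : Tendsto G F (𝓝 1) := hlim0.mono_left Nat.hyperfilter_le_atTop
  have hev : ∀ᶠ n in (F : Filter ℕ), ¬ (G n i l = 0 ∧ G n j l = 0) := by
    filter_upwards [near_one hlim] with n hn h
    exact no_block hY hne hij hli hlj (hy n).1 (hp n) (hβ n) (hG n) hn (Or.inl h)
  have hdich : ∃ p0, (p0 = i ∨ p0 = j) ∧ ∀ᶠ n in (F : Filter ℕ),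
      |G n i l| ≤ |G n p0 l| ∧ |G n j l| ≤ |G n p0 l| := by
    have h : ∀ᶠ n in (F : Filter ℕ), |G n i l| ≤ |G n j l| ∨ |G n j l| ≤ |G n i l| :=
      Eventually.of_forall fun n => le_total _ _
    rw [Ultrafilter.eventually_or] at h
    rcases h with h | h
    · refine ⟨j, Or.inr rfl, ?_⟩
      filter_upwards [h] with n hn
      exact ⟨hn, le_rfl⟩
    · refine ⟨i, Or.inl rfl, ?_⟩
      filter_upwards [h] with n hn
      exact ⟨le_rfl, hn⟩
  obtain ⟨p0, hp0, hmax⟩ := hdich
  have hp0l : p0 ≠ l := by rcases hp0 with rfl | rfl <;> [exact hli.symm; exact hlj.symm]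
  obtain ⟨v0, hv0, hv0', k, hk, hvk⟩ := blowup hY (wst_closed hY.closed i j s)
    (fun M hM => hM.1) (fun M hM γ hγ => wst_right hY hM hγ)
    (e := fun p => if p = l then (-2 : ℤ) else 1) (ex_sum l) (R := 3) (by norm_num)
    (by
      intro p q
      split_ifs <;> norm_num)
    (by
      intro M hM t ht
      refine wst_inv hY s hM (det_zpow ht (ex_sum l)) ?_
      rw [if_neg (Ne.symm hli), if_neg (Ne.symm hlj)]) F hy hGy hlim (p0 := p0) (q0 := l)
    (by rw [if_neg hp0l, if_pos rfl]; norm_num)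
    (by
      filter_upwards [hev, hmax] with n hn1 hn2 h0
      rw [h0, abs_zero] at hn2
      exact hn1 ⟨abs_nonpos_iff.mp hn2.1, abs_nonpos_iff.mp hn2.2⟩)
    (by
      filter_upwards [hmax] with n hn
      intro a b hlt
      rcases hall b with rfl | rfl | rfl
      · rw [if_neg (Ne.symm hli)] at hlt
        split_ifs at hlt <;> omega
      · rw [if_neg (Ne.symm hlj)] at hlt
        split_ifs at hlt <;> omega
      · rcases hall a with rfl | rfl | rfl
        · exact hn.1
        · exact hn.2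
        · exact absurd hlt (lt_irrefl _))
  have hid : ∀ a b, (a = l ∨ b ≠ l) → v0 a b = (1 : Mt) a b := by
    intro a b h
    refine hv0 a b ?_
    rcases h with rfl | h
    · rw [if_pos rfl]; split_ifs <;> norm_num
    · rw [if_neg h]; split_ifs <;> norm_num
  have hdiag : ∀ a, v0 a a = 1 := by
    intro a
    rw [hid a a (by by_cases h : a = l <;> [left; right] <;> exact h), Matrix.one_apply_eq]
  have e_ij : v0 i j = 0 := by rw [hid i j (Or.inr hlj.symm), Matrix.one_apply_ne hij]
  have e_ji : v0 j i = 0 := by rw [hid j i (Or.inr hli.symm), Matrix.one_apply_ne hij.symm]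
  have e_li : v0 l i = 0 := by rw [hid l i (Or.inl rfl), Matrix.one_apply_ne hli]
  have e_lj : v0 l j = 0 := by rw [hid l j (Or.inl rfl), Matrix.one_apply_ne hlj]
  by_cases hx : v0 i l = 0
  · have hjl : v0 j l ≠ 0 := by
      rcases hp0 with rfl | rfl
      · exact absurd hx hv0'
      · exact hv0'
    set v' : Mt := transvection i j s * v0 * transvection i j (-s) with hv'
    have hv'k : v' * (transvection i j s * k) ∈ Y := by
      have : v' * (transvection i j s * k) = transvection i j s * (v0 * k) := by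
        rw [hv', mul_assoc, ← mul_assoc (transvection i j (-s)), transv_cancel hij, one_mul,
          mul_assoc]
      rw [this]; exact hvk.2
    have hil : v' i l = s * v0 j l := by
      rw [hv', conj_transv, if_pos rfl, if_neg hlj, hx]; ring
    have h := scale_root hY (k := transvection i j s * k) (v := v') hk.2 hv'k
      (p0 := i) (q0 := l) (r0 := j) ?_ hli.symm hij.symm hlj.symm ?_ (Or.inl ⟨?_, ?_⟩)
    · rw [hil] at h
      exact ⟨_, mul_ne_zero hs hjl, h⟩
    · intro a
      rw [hv', conj_transv]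
      rcases hall a with rfl | rfl | rfl
      · rw [if_pos rfl, if_neg hij, hdiag, e_ji]; ring
      · rw [if_neg hij.symm, if_pos rfl, if_neg hij.symm, hdiag, e_ji]; ring
      · rw [if_neg hli, if_neg hlj, hdiag]; ring
    · rw [hv', conj_transv, if_neg hli, if_neg hij, e_li]; ring
    · rw [hv', conj_transv, if_pos rfl, if_pos rfl, if_pos rfl, hdiag, hdiag, e_ij, e_ji]; ring
    · rw [hv', conj_transv, if_neg hli, if_pos rfl, if_neg hli, e_li, e_lj]; ring
  · exact ⟨v0 i l, hx, scale_root hY hk.1 hvk.1 hdiag hli.symm hij.symm hlj.symm e_li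
      (Or.inl ⟨e_ij, e_lj⟩)⟩

theorem rule_row {Y : Set Mt} (hY : Bd Y) (hne : NC Y) {i j l : Fin 3} (hij : i ≠ j)
    (hli : l ≠ i) (hlj : l ≠ j) {s : ℝ} (hs : s ≠ 0) (hW : (Wst Y i j s).Nonempty) :
    ∃ x : ℝ, x ≠ 0 ∧ (Wst Y l j x).Nonempty := by
  have hall := three_cases hij hli hlj
  obtain ⟨y, G, β, p, hy, hGy, hp, hβ, hG, hlim0, -⟩ := returns (W := Wst Y i j s) hY
    (fun M hM => hM.1) (fun M hM γ hγ => wst_right hY hM hγ) l
    (fun M hM => wst_inv hY s hM (bl_det l) (by
      unfold bl; rw [if_neg (Ne.symm hli), if_neg (Ne.symm hlj)])) hW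
  set F : Ultrafilter ℕ := hyperfilter ℕ with hF
  have hlim : Tendsto G F (𝓝 1) := hlim0.mono_left Nat.hyperfilter_le_atTop
  have hev : ∀ᶠ n in (F : Filter ℕ), ¬ (G n l i = 0 ∧ G n l j = 0) := by
    filter_upwards [near_one hlim] with n hn h
    exact no_block hY hne hij hli hlj (hy n).1 (hp n) (hβ n) (hG n) hn (Or.inr h)
  have hdich : ∃ q0, (q0 = i ∨ q0 = j) ∧ ∀ᶠ n in (F : Filter ℕ),
      |G n l i| ≤ |G n l q0| ∧ |G n l j| ≤ |G n l q0| := by
    have h : ∀ᶠ n in (F : Filter ℕ), |G n l i| ≤ |G n l j| ∨ |G n l j| ≤ |G n l i| :=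
      Eventually.of_forall fun n => le_total _ _
    rw [Ultrafilter.eventually_or] at h
    rcases h with h | h
    · refine ⟨j, Or.inr rfl, ?_⟩
      filter_upwards [h] with n hn
      exact ⟨hn, le_rfl⟩
    · refine ⟨i, Or.inl rfl, ?_⟩
      filter_upwards [h] with n hn
      exact ⟨le_rfl, hn⟩
  obtain ⟨q0, hq0, hmax⟩ := hdich
  have hq0l : q0 ≠ l := by rcases hq0 with rfl | rfl <;> [exact hli.symm; exact hlj.symm]
  obtain ⟨v0, hv0, hv0', k, hk, hvk⟩ := blowup hY (wst_closed hY.closed i j s)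
    (fun M hM => hM.1) (fun M hM γ hγ => wst_right hY hM hγ)
    (e := fun p => if p = l then (2 : ℤ) else -1) (ex_sum' l) (R := 3) (by norm_num)
    (by
      intro p q
      split_ifs <;> norm_num)
    (by
      intro M hM t ht
      refine wst_inv hY s hM (det_zpow ht (ex_sum' l)) ?_
      rw [if_neg (Ne.symm hli), if_neg (Ne.symm hlj)]) F hy hGy hlim (p0 := l) (q0 := q0)
    (by rw [if_neg hq0l, if_pos rfl]; norm_num)
    (by
      filter_upwards [hev, hmax] with n hn1 hn2 h0
      rw [h0, abs_zero] at hn2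
      exact hn1 ⟨abs_nonpos_iff.mp hn2.1, abs_nonpos_iff.mp hn2.2⟩)
    (by
      filter_upwards [hmax] with n hn
      intro a b hlt
      rcases hall a with rfl | rfl | rfl
      · rw [if_neg (Ne.symm hli)] at hlt
        split_ifs at hlt <;> omega
      · rw [if_neg (Ne.symm hlj)] at hlt
        split_ifs at hlt <;> omega
      · rcases hall b with rfl | rfl | rfl
        · exact hn.1
        · exact hn.2
        · exact absurd hlt (lt_irrefl _))
  have hid : ∀ a b, (b = l ∨ a ≠ l) → v0 a b = (1 : Mt) a b := by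
    intro a b h
    refine hv0 a b ?_
    rcases h with rfl | h
    · rw [if_pos rfl]; split_ifs <;> norm_num
    · rw [if_neg h]; split_ifs <;> norm_num
  have hdiag : ∀ a, v0 a a = 1 := by
    intro a
    rw [hid a a (by by_cases h : a = l <;> [left; right] <;> exact h), Matrix.one_apply_eq]
  have e_ij : v0 i j = 0 := by rw [hid i j (Or.inr hli.symm), Matrix.one_apply_ne hij]
  have e_ji : v0 j i = 0 := by rw [hid j i (Or.inr hlj.symm), Matrix.one_apply_ne hij.symm]
  have e_il : v0 i l = 0 := by rw [hid i l (Or.inl rfl), Matrix.one_apply_ne hli.symm]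
  have e_jl : v0 j l = 0 := by rw [hid j l (Or.inl rfl), Matrix.one_apply_ne hlj.symm]
  by_cases hx : v0 l j = 0
  · have hjl : v0 l i ≠ 0 := by
      rcases hq0 with rfl | rfl
      · exact hv0'
      · exact absurd hx hv0'
    set v' : Mt := transvection i j s * v0 * transvection i j (-s) with hv'
    have hv'k : v' * (transvection i j s * k) ∈ Y := by
      have : v' * (transvection i j s * k) = transvection i j s * (v0 * k) := by
        rw [hv', mul_assoc, ← mul_assoc (transvection i j (-s)), transv_cancel hij, one_mul,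
          mul_assoc]
      rw [this]; exact hvk.2
    have hil : v' l j = -(s * v0 l i) := by
      rw [hv', conj_transv, if_neg hli, if_pos rfl, if_neg hli, hx]; ring
    have h := scale_root hY (k := transvection i j s * k) (v := v') hk.2 hv'k
      (p0 := l) (q0 := j) (r0 := i) ?_ hlj hli.symm hij ?_ (Or.inr ⟨?_, ?_⟩)
    · rw [hil] at h
      exact ⟨_, neg_ne_zero.mpr (mul_ne_zero hs hjl), h⟩
    · intro a
      rw [hv', conj_transv]
      rcases hall a with rfl | rfl | rfl
      · rw [if_pos rfl, if_neg hij, hdiag, e_ji]; ring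
      · rw [if_neg hij.symm, if_pos rfl, if_neg hij.symm, hdiag, e_ji]; ring
      · rw [if_neg hli, if_neg hlj, hdiag]; ring
    · rw [hv', conj_transv, if_neg hij.symm, if_neg hlj, e_jl]; ring
    · rw [hv', conj_transv, if_pos rfl, if_neg hlj, e_il, e_jl]; ring
    · rw [hv', conj_transv, if_pos rfl, if_pos rfl, if_pos rfl, hdiag, hdiag, e_ij, e_ji]; ring
  · exact ⟨v0 l j, hx, scale_root hY hk.1 hvk.1 hdiag hlj hli.symm hij e_jl
      (Or.inr ⟨e_il, e_ij⟩)⟩

/-- all six roots -/
theorem all_roots {Y : Set Mt} (hY : Bd Y) (hne : NC Y) {p q : Fin 3} (hpq : p ≠ q) :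
    ∃ x : ℝ, x ≠ 0 ∧ (Wst Y p q x).Nonempty := by
  obtain ⟨i, j, hij, s, hs, hW⟩ := exists_pair hY hne
  obtain ⟨l, hli, hlj, -⟩ := third i j hij
  have c : ∀ {a b c : Fin 3}, a ≠ b → c ≠ a → c ≠ b → (∃ x : ℝ, x ≠ 0 ∧ (Wst Y a b x).Nonempty) →
      ∃ x : ℝ, x ≠ 0 ∧ (Wst Y a c x).Nonempty := by
    rintro a b c hab hca hcb ⟨x, hx, hxW⟩
    exact rule_col hY hne hab hca hcb hx hxW
  have r : ∀ {a b c : Fin 3}, a ≠ b → c ≠ a → c ≠ b → (∃ x : ℝ, x ≠ 0 ∧ (Wst Y a b x).Nonempty) →
      ∃ x : ℝ, x ≠ 0 ∧ (Wst Y c b x).Nonempty := by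
    rintro a b c hab hca hcb ⟨x, hx, hxW⟩
    exact rule_row hY hne hab hca hcb hx hxW
  have k_ij : ∃ x : ℝ, x ≠ 0 ∧ (Wst Y i j x).Nonempty := ⟨s, hs, hW⟩
  have k_il := c hij hli hlj k_ij
  have k_lj := r hij hli hlj k_ij
  have k_jl := r hli.symm hij.symm hlj.symm k_il
  have k_li := c hlj hli.symm hij k_lj
  have k_ji := c hlj.symm hij hli.symm k_jl
  have hall := three_cases hij hli hlj
  rcases hall p with rfl | rfl | rfl <;> rcases hall q with rfl | rfl | rfl
  · exact absurd rfl hpq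
  · exact k_ij
  · exact k_il
  · exact k_ji
  · exact absurd rfl hpq
  · exact k_jl
  · exact k_li
  · exact k_lj
  · exact absurd rfl hpq

end M3E
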