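import Pool.Agent.M3E.Rule

/-!
# Singular orbits
-/

set_option autoImplicit false

open Matrix Filter Topology Set

namespace M3E

open Margulis3 M3C M3D

/-- orbit under the singular group `|a i| = |a j|` -/
def singOrbit (i j : Fin 3) (h : Mt) : Set Mt :=
  {M | ∃ a : Fin 3 → ℝ, (Matrix.diagonal a).det = 1 ∧ |a i| = |a j| ∧
    ∃ γ : Matrix (Fin 3) (Fin 3) ℤ, γ.det = 1 ∧
      M = Matrix.diagonal a * h * γ.map (fun z : ℤ => (z : ℝ))}

lemma sing_self (i j : Fin 3) (h : Mt) : h ∈ singOrbit i j h :=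
  ⟨fun _ => 1, by simp, rfl, 1, by simp, by
    have h1 := ir_one
    change h = Matrix.diagonal (fun _ => (1 : ℝ)) * h * ir 1
    rw [h1, mul_one, diagonal_one, one_mul]⟩

lemma sing_left {i j : Fin 3} {h M : Mt} (hM : M ∈ singOrbit i j h) {a : Fin 3 → ℝ}
    (ha : (Matrix.diagonal a).det = 1) (haij : |a i| = |a j|) :
    Matrix.diagonal a * M ∈ singOrbit i j h := by
  obtain ⟨b, hb, hbij, γ, hγ, rfl⟩ := hM
  refine ⟨fun p => a p * b p, diag_mul_det ha hb, ?_, γ, hγ, ?_⟩
  · simp only [abs_mul, haij, hbij]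
  · rw [← diagonal_mul_diagonal]; simp only [mul_assoc]

lemma sing_right {i j : Fin 3} {h M : Mt} (hM : M ∈ singOrbit i j h) {β : Zt}
    (hβ : β.det = 1) : M * ir β ∈ singOrbit i j h := by
  obtain ⟨b, hb, hbij, γ, hγ, rfl⟩ := hM
  refine ⟨b, hb, hbij, γ * β, by rw [det_mul, hγ, hβ, one_mul], ?_⟩
  change Matrix.diagonal b * h * ir γ * ir β = Matrix.diagonal b * h * ir (γ * β)
  rw [ir_mul, mul_assoc]

lemma sing_sub_orbit (i j : Fin 3) (h : Mt) : singOrbit i j h ⊆ orbitSet h := by
  rintro M ⟨b, hb, -, γ, hγ, rfl⟩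
  exact ⟨b, hb, γ, hγ, rfl⟩

lemma sing_sub {Y : Set Mt} (hY : Bd Y) {i j : Fin 3} {s : ℝ} {h : Mt} (hh : h ∈ Wst Y i j s) :
    closure (singOrbit i j h) ⊆ Wst Y i j s ∪ Wst Y i j (-s) := by
  refine closure_minimal ?_ ((wst_closed hY.closed i j s).union (wst_closed hY.closed i j (-s)))
  rintro M ⟨a, ha, haij, γ, hγ, rfl⟩
  have h1 := wst_right hY (wst_left hY hh ha) hγ
  have haj := diag_ne ha j
  rcases abs_eq_abs.mp haij with h2 | h2
  · left
    rwa [h2, mul_inv_cancel₀ haj, one_mul] at h1
  · right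
    have e : a i * (a j)⁻¹ * s = -s := by
      rw [h2, neg_mul, mul_inv_cancel₀ haj]; ring
    rwa [e] at h1

lemma transv_mulVec {i j : Fin 3} (s : ℝ) (x : Fin 3 → ℝ) :
    (transvection i j s *ᵥ x) i = x i + s * x j := by
  have h : transvection i j s *ᵥ x = x + Matrix.single i j s *ᵥ x := by
    unfold transvection
    rw [add_mulVec, one_mulVec]
  have h2 : (Matrix.single i j s *ᵥ x) i = s * x j := by
    change ∑ q, Matrix.single i j s i q * x q = s * x j
    rw [Finset.sum_eq_single j]
    · rw [Matrix.single_apply_same]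
    · intro q _ hq
      rw [Matrix.single_apply, if_neg (fun h => hq h.2.symm), zero_mul]
    · intro h; exact absurd (Finset.mem_univ j) h
  rw [h, Pi.add_apply, h2]

lemma no_line {Y : Set Mt} (hY : Bd Y) {i j : Fin 3} {k : Mt}
    (h : ∀ s : ℝ, transvection i j s * k ∈ Y) : False := by
  obtain ⟨δ, hδ, hlow⟩ := hY.low
  set e1 : Fin 3 → ℤ := ![1, 0, 0] with he1
  have he1' : e1 ≠ 0 := by
    intro h
    have := congrFun h 0
    simp [he1] at this
  set x := k *ᵥ cv e1 with hx
  have hxj : x j ≠ 0 := by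
    intro h0
    have hk : k ∈ Y := by
      have := h 0
      rwa [transvection_zero, one_mul] at this
    have h1 := hlow k hk e1 he1'
    have h2 : prodForm k (cv e1) = 0 := by
      unfold prodForm
      exact Finset.prod_eq_zero (Finset.mem_univ j) h0
    rw [h2, abs_zero] at h1
    linarith
  have h1 := hlow _ (h (-(x i) / x j)) e1 he1'
  have h2 : prodForm (transvection i j (-(x i) / x j) * k) (cv e1) = 0 := by
    unfold prodForm
    refine Finset.prod_eq_zero (Finset.mem_univ i) ?_
    rw [← mulVec_mulVec, ← hx, transv_mulVec]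
    field_simp
    ring
  rw [h2, abs_zero] at h1
  linarith

lemma transv_add {i j : Fin 3} (hij : i ≠ j) (s t : ℝ) :
    transvection i j s * transvection i j t = (transvection i j (s + t) : Mt) :=
  transvection_mul_transvection_same _ _ hij s t

lemma no_interval {Y : Set Mt} (hY : Bd Y) {i j : Fin 3} (hij : i ≠ j) {h : Mt} {c r : ℝ}
    (hr : 0 < r) (H : ∀ s : ℝ, |s - c| < r → transvection i j s * h ∈ Y) : False := by
  set h' : Mt := transvection i j c * h with hh'
  have H' : ∀ s : ℝ, |s| < r → transvection i j s * h' ∈ Y := by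
    intro s hs
    rw [hh', ← mul_assoc, transv_add hij]
    exact H _ (by simpa using hs)
  have hh'Y : h' ∈ Y := by
    have := H' 0 (by simpa using hr)
    rwa [transvection_zero, one_mul] at this
  obtain ⟨K, hK, hKm⟩ := hY.cpt
  set a : ℕ → Fin 3 → ℝ := fun n p =>
    ((2 : ℝ) ^ n) ^ (if p = i then (1 : ℤ) else if p = j then -1 else 0) with ha
  have hadet : ∀ n, (Matrix.diagonal (a n)).det = 1 := fun n =>
    det_zpow (by positivity) (pm_sum hij)
  have hai : ∀ n, a n i = 2 ^ n := by
    intro n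
    simp only [ha, if_true, zpow_one]
  have haj : ∀ n, a n j = (2 ^ n)⁻¹ := by
    intro n
    simp only [ha, if_true, if_neg hij.symm, _root_.zpow_neg_one]
  choose γ hγ hγK using fun n => hKm _ (hY.left _ hh'Y _ (hadet n))
  set F : Ultrafilter ℕ := hyperfilter ℕ with hF
  have hFle : (F : Filter ℕ) ≤ atTop := Nat.hyperfilter_le_atTop
  obtain ⟨k, -, hlim⟩ := ult_cpt F hK (fun n => Matrix.diagonal (a n) * h' * ir (γ n))
    (Eventually.of_forall hγK)
  refine no_line hY (i := i) (j := j) (k := k) fun s => ?_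
  have hl := tendsto_mul' (tendsto_const_nhds (x := (transvection i j s : Mt))) hlim
  refine hY.closed.mem_of_tendsto hl ?_
  have h0 : Tendsto (fun n : ℕ => ((1 / 4 : ℝ)) ^ n * s) F (𝓝 (0 * s)) :=
    ((tendsto_pow_atTop_nhds_zero_of_lt_one (by norm_num) (by norm_num)).mono_left hFle).mul_const s
  rw [zero_mul] at h0
  have h1 := (Metric.tendsto_nhds.mp h0) r hr
  filter_upwards [h1] with n hn
  rw [Real.dist_eq, sub_zero] at hn
  have e : Matrix.diagonal (a n) * (transvection i j ((1 / 4 : ℝ) ^ n * s) * h') * ir (γ n)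
      = transvection i j s * (Matrix.diagonal (a n) * h' * ir (γ n)) := by
    rw [← mul_assoc (Matrix.diagonal (a n)), diag_transv (a n) _ (diag_ne (hadet n) j)]
    have e1 : a n i * (a n j)⁻¹ * ((1 / 4 : ℝ) ^ n * s) = s := by
      rw [hai, haj, inv_inv, ← mul_assoc]
      have : (2 : ℝ) ^ n * 2 ^ n * (1 / 4) ^ n = 1 := by
        rw [← mul_pow, ← mul_pow]; norm_num
      rw [this, one_mul]
    rw [e1]
    simp only [mul_assoc]
  rw [← e]
  exact hY.right _ (hY.left _ (H' _ hn) _ (hadet n)) _ (hγ n)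

/-- without closed orbits some singular orbit closure contains no open piece of an orbit -/
theorem sing_not_minimal {Y : Set Mt} (hY : Bd Y) (hne : NC Y) {i j : Fin 3} (hij : i ≠ j) :
    ∃ h ∈ Y, ∀ h' : Mt, ∀ U ∈ 𝓝 (1 : Fin 3 → ℝ), ¬ (∀ a ∈ U, (Matrix.diagonal a).det = 1 →
      Matrix.diagonal a * h' ∈ closure (singOrbit i j h)) := by
  obtain ⟨x, hx, h, hh⟩ := all_roots hY hne hij
  refine ⟨h, hh.1, fun h' U hU hsub => ?_⟩
  have hW := sing_sub hY hh
  obtain ⟨l, hli, hlj, -⟩ := third i j hij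
  set av : ℝ → Fin 3 → ℝ := fun ρ p => if p = i then ρ else if p = j then 1 else ρ⁻¹ with hav
  have havc : ContinuousAt av 1 := by
    refine continuousAt_pi.mpr fun p => ?_
    simp only [hav]
    by_cases h1 : p = i
    · simp only [if_pos h1]; exact continuousAt_id
    · by_cases h2 : p = j
      · simp only [if_neg h1, if_pos h2]; exact continuousAt_const
      · simp only [if_neg h1, if_neg h2]; exact continuousAt_inv₀ one_ne_zero
  have hav1 : av 1 = 1 := by
    funext p
    simp only [hav, Pi.one_apply]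
    split_ifs <;> simp
  have hUev : ∀ᶠ ρ in 𝓝 (1 : ℝ), av ρ ∈ U := by
    have h1 : Tendsto av (𝓝 1) (𝓝 (1 : Fin 3 → ℝ)) := by
      have := havc.tendsto
      rwa [hav1] at this
    exact h1 hU
  have hinv : Tendsto (fun s : ℝ => x / s) (𝓝 x) (𝓝 1) := by
    have h1 : ContinuousAt (fun s : ℝ => x / s) x :=
      continuousAt_const.div continuousAt_id hx
    have h2 := h1.tendsto
    rwa [div_self hx] at h2
  obtain ⟨r0, hr0, hr0b⟩ := Metric.eventually_nhds_iff_ball.mp
    ((hinv.eventually hUev).and (eventually_ne_nhds hx))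
  have key : ∀ s : ℝ, s ∈ Metric.ball x r0 →
      transvection i j s * h' ∈ Y ∨ transvection i j (-s) * h' ∈ Y := by
    intro s hs'
    obtain ⟨hsU, hs⟩ := hr0b s hs'
    set ρ : ℝ := x / s with hρ
    have hρ0 : ρ ≠ 0 := div_ne_zero hx hs
    have hadet : (Matrix.diagonal (av ρ)).det = 1 := by
      rw [det_diagonal, prod_three hij hli hlj]
      simp only [hav, if_true, if_neg hij.symm, if_neg hli, if_neg hlj, mul_one]
      exact mul_inv_cancel₀ hρ0
    obtain ⟨i1, i2, i3⟩ := diag_inv hadet
    have hai : av ρ i = ρ := by simp only [hav, if_true]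
    have haj : av ρ j = 1 := by simp only [hav, if_true, if_neg hij.symm]
    have hmem : Matrix.diagonal (av ρ) * h' ∈ closure (singOrbit i j h) := hsub _ hsU hadet
    have back : ∀ y : ℝ, Matrix.diagonal (av ρ) * h' ∈ Wst Y i j y →
        transvection i j (y / ρ) * h' ∈ Y := by
      intro y hy
      have h1 := (wst_left hY hy i1).2
      rw [← mul_assoc (Matrix.diagonal fun i => (av ρ i)⁻¹), i2, one_mul, hai, haj] at h1
      have e : ρ⁻¹ * (1 : ℝ)⁻¹⁻¹ * y = y / ρ := by
        rw [inv_one, inv_one, mul_one, div_eq_mul_inv, mul_comm]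
      rwa [e] at h1
    rcases hW hmem with h1 | h1
    · left
      have h2 := back x h1
      have e : x / ρ = s := by rw [hρ]; field_simp
      rwa [e] at h2
    · right
      have h2 := back (-x) h1
      have e : -x / ρ = -s := by rw [hρ]; field_simp
      rwa [e] at h2
  have hcont : Continuous (fun s : ℝ => (transvection i j s : Mt) * h') := by
    refine Continuous.matrix_mul ?_ continuous_const
    unfold transvection
    refine continuous_const.add ?_
    refine continuous_matrix fun p q => ?_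
    simp only [Matrix.single_apply]
    split_ifs
    · exact continuous_id
    · exact continuous_const
  have hclosed : IsClosed {s : ℝ | transvection i j s * h' ∈ Y} := hY.closed.preimage hcont
  by_cases hall : ∀ s : ℝ, s ∈ Metric.ball x r0 → transvection i j s * h' ∈ Y
  · refine no_interval hY hij (c := x) hr0 (h := h') fun s hs => hall s ?_
    rw [Metric.mem_ball, Real.dist_eq]; exact hs
  · push Not at hall
    obtain ⟨x0, hx0b, hx0⟩ := hall
    have hopen : IsOpen ({s : ℝ | transvection i j s * h' ∈ Y}ᶜ ∩ Metric.ball x r0) :=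
      hclosed.isOpen_compl.inter Metric.isOpen_ball
    obtain ⟨r, hr, hball⟩ := Metric.isOpen_iff.mp hopen x0 ⟨hx0, hx0b⟩
    refine no_interval hY hij (c := -x0) hr (h := h') fun s hs => ?_
    have h1 : -s ∈ Metric.ball x0 r := by
      rw [Metric.mem_ball, Real.dist_eq]
      have e : -s - x0 = -(s - -x0) := by ring
      rw [e, abs_neg]; exact hs
    obtain ⟨h2, h2b⟩ := hball h1
    rcases key (-s) h2b with h3 | h3
    · exact absurd h3 h2
    · rwa [neg_neg] at h3

end M3E
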